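import Pool.Agent.Lib.MP_abcfcd_nt.Lgrp

/-!
# The standard character of the adeles

PROOF. `exists_rat`: for `x : Af` there is a rational `q` with `x p - q` integral for all `p`. Only
finitely many `x p` are not integral. For one prime `p` there is `q_p ∈ ℤ[1/p]` with `x p - q_p`
integral (`x p = p^(-n) y`, `y ∈ ℤ_p`, `y ≡ a mod p^n` for an integer `a` (`PadicInt.appr` or
`PadicInt.exists_mem_range_of_norm_rat_le_one`-type lemmas), `q_p = a / p^n`), and `q_p` is
integral at
the other primes; `q = ∑ q_p`. `ratPart_spec`: definition. `psi_eq`: if `x = (r + q, z + q)` with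
`z`
integral, then `q - ratPart` is a rational number integral at all primes, hence an integer (its
denominator is not divisible by any prime), and `fourierChar` is trivial on integers. The other
statements follow from `psi_eq`. Continuity: `psi` is a homomorphism and on the open neighbourhood
`{x | x.2 integral}` of `0` (`RestrictedProduct.isOpen_forall_mem` or the neighbourhood of
`Af` given by `structureMap`) it is `fourierChar x.1`, which is continuous. `psi_at7`: if `‖x‖ ≤ 1`
use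
`psi_int`; if `psi (at7 x) = 1` and `q = ratPart`, then `fourierChar (-q) = 1`, so `q` is an
integer and
`x = (x - q) + q` is integral.
-/

set_option autoImplicit false

open Matrix MeasureTheory Topology
open scoped ENNReal NNReal ComplexConjugate RestrictedProduct

namespace Pool.Agent.MPabcfcd

private theorem exists_rat_one (p : Nat.Primes) (x : ℚ_[p]) :
    ∃ q : ℚ, ‖x - (q : ℚ_[p])‖ ≤ 1 ∧ ∀ l : Nat.Primes, l ≠ p → ‖(q : ℚ_[l])‖ ≤ 1 := by
  have hp1 : (1 : ℝ) < (p : ℕ) := by exact_mod_cast p.2.one_lt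
  have hp0 : (0 : ℝ) < (p : ℕ) := by linarith
  obtain ⟨n, hn⟩ := pow_unbounded_of_one_lt ‖x‖ hp1
  have hy : ‖x * (p : ℕ) ^ n‖ ≤ 1 := by
    rw [norm_mul, norm_pow, Padic.norm_p, inv_pow, mul_inv_le_iff₀ (by positivity), one_mul]
    exact hn.le
  set y : ℤ_[p] := ⟨x * (p : ℕ) ^ n, hy⟩ with hydef
  have hspec := (PadicInt.norm_le_pow_iff_mem_span_pow (y - (y.appr n : ℤ_[p])) n).2
    (PadicInt.appr_spec n y)
  have hpne : ((p : ℕ) : ℚ_[p]) ≠ 0 := by exact_mod_cast p.2.ne_zero
  refine ⟨(y.appr n : ℚ) / (p : ℕ) ^ n, ?_, ?_⟩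
  · have h1 : x - (((y.appr n : ℚ) / ((p : ℕ) : ℚ) ^ n : ℚ) : ℚ_[p]) =
        ((y - (y.appr n : ℤ_[p]) : ℤ_[p]) : ℚ_[p]) / ((p : ℕ) : ℚ_[p]) ^ n := by
      push_cast
      rw [hydef]
      field_simp
    rw [h1, norm_div, norm_pow, Padic.norm_p]
    rw [PadicInt.norm_def] at hspec
    rw [inv_pow, div_inv_eq_mul]
    rw [_root_.zpow_neg, zpow_natCast] at hspec
    calc _ ≤ (((p : ℕ) : ℝ) ^ n)⁻¹ * ((p : ℕ) : ℝ) ^ n :=
          mul_le_mul_of_nonneg_right hspec (by positivity)
      _ = 1 := inv_mul_cancel₀ (by positivity)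
  · intro l hl
    have h1 : ‖((p : ℕ) : ℚ_[l])‖ = 1 := by
      rw [Padic.norm_natCast_eq_one_iff]
      refine (Nat.coprime_primes l.2 p.2).2 ?_
      exact fun h => hl (Subtype.ext h)
    push_cast
    rw [norm_div, norm_pow, h1, one_pow, div_one]
    have h2 := Padic.norm_int_le_one (p := l) (y.appr n : ℤ)
    exact_mod_cast h2

theorem exists_rat (x : Af) : ∃ q : ℚ, ∀ p : Nat.Primes,
    x p - (q : ℚ_[p]) ∈ (PadicInt.subring p : Subring ℚ_[p]) := by
  have hfin : {p : Nat.Primes | ¬ x p ∈ (PadicInt.subring p : Subring ℚ_[p])}.Finite :=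
    Filter.eventually_cofinite.1 x.2
  choose q hq1 hq2 using fun p : Nat.Primes => exists_rat_one p (x p)
  have hq3 : ∀ l p : Nat.Primes, p ≠ l → ((q p : ℚ) : ℚ_[l]) ∈ PadicInt.subring l :=
    fun l p h => hq2 p l (Ne.symm h)
  refine ⟨∑ p ∈ hfin.toFinset, q p, fun l => ?_⟩
  rw [Rat.cast_sum]
  by_cases hl : l ∈ hfin.toFinset
  · rw [← Finset.add_sum_erase _ _ hl, ← sub_sub]
    refine sub_mem (hq1 l) (sum_mem fun p hp => hq3 l p (Finset.ne_of_mem_erase hp))
  · refine sub_mem ?_ (sum_mem fun p hp => hq3 l p ?_)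
    · by_contra h
      exact hl (hfin.mem_toFinset.2 h)
    · rintro rfl
      exact hl hp

theorem ratPart_spec (x : Af) (p : Nat.Primes) : ‖x p - (ratPart x : ℚ_[p])‖ ≤ 1 := by
  have h := exists_rat x
  rw [ratPart, dif_pos h]
  exact h.choose_spec p

theorem rat_int {q : ℚ} (h : ∀ p : Nat.Primes, ‖(q : ℚ_[p])‖ ≤ 1) : ∃ n : ℤ, q = n := by
  refine ⟨q.num, ?_⟩
  have hden : q.den = 1 := by
    by_contra hne
    obtain ⟨p, hp, hpd⟩ := Nat.exists_prime_and_dvd hne
    have : Fact (Nat.Prime p) := ⟨hp⟩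
    have h1 := PadicInt.isUnit_den (p := p) q (h ⟨p, hp⟩)
    rw [PadicInt.isUnit_iff, PadicInt.norm_natCast_eq_one_iff] at h1
    exact (Nat.Prime.coprime_iff_not_dvd hp).1 h1 hpd
  exact (Rat.den_eq_one_iff q).1 hden |>.symm

private theorem fc_int (n : ℤ) : Real.fourierChar (n : ℝ) = 1 := by
  rw [Real.fourierChar_apply', Circle.exp_two_pi_mul_int]

theorem psi_eq {x : AQ} {q : ℚ} (h : ∀ p : Nat.Primes, ‖x.2 p - (q : ℚ_[p])‖ ≤ 1) :
    psi x = Real.fourierChar (x.1 - q) := by
  obtain ⟨n, hn⟩ := rat_int (q := q - ratPart x.2) (fun p => by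
    have h1 : ((q - ratPart x.2 : ℚ) : ℚ_[p]) =
        (x.2 p - (ratPart x.2 : ℚ_[p])) - (x.2 p - (q : ℚ_[p])) := by
      push_cast
      ring
    rw [h1]
    exact (PadicInt.subring p : Subring ℚ_[p]).sub_mem (ratPart_spec x.2 p) (h p))
  have h2 : ((ratPart x.2 : ℚ) : ℝ) = (q : ℝ) - (n : ℝ) := by
    have h3 : ratPart x.2 = q - (n : ℚ) := by
      rw [← hn]
      ring
    rw [h3]
    push_cast
    ring
  rw [psi, h2, sub_sub_eq_add_sub, add_sub_right_comm, AddChar.map_add_eq_mul, fc_int, mul_one]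

theorem psi_add (x y : AQ) : psi (x + y) = psi x * psi y := by
  rw [psi_eq (x := x + y) (q := ratPart x.2 + ratPart y.2) (fun p => ?_), psi, psi,
    ← AddChar.map_add_eq_mul]
  · congr 1
    push_cast
    rw [Prod.fst_add]
    ring
  · have h1 : (x + y).2 p - ((ratPart x.2 + ratPart y.2 : ℚ) : ℚ_[p]) =
        (x.2 p - (ratPart x.2 : ℚ_[p])) + (y.2 p - (ratPart y.2 : ℚ_[p])) := by
      have h2 : (x + y).2 p = x.2 p + y.2 p := rfl
      rw [h2]
      push_cast
      ring
    rw [h1]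
    exact (PadicInt.subring p : Subring ℚ_[p]).add_mem (ratPart_spec x.2 p) (ratPart_spec y.2 p)

theorem psi_zero : psi 0 = 1 := by
  have h := psi_add 0 0
  rw [add_zero] at h
  exact (mul_eq_left.1 h.symm)

theorem psi_neg (x : AQ) : psi (-x) = (psi x)⁻¹ := by
  refine eq_inv_of_mul_eq_one_left ?_
  rw [← psi_add, neg_add_cancel, psi_zero]

theorem psi_rat (q : ℚ) : psi (ratAQ q) = 1 := by
  rw [psi_eq (q := q) (fun p => ?_)]
  · have h : (ratAQ q).1 = (q : ℝ) := rfl
    rw [h, sub_self, AddChar.map_zero_eq_one]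
  · have h : (ratAQ q).2 p = (q : ℚ_[p]) := rfl
    rw [h, sub_self, norm_zero]
    exact zero_le_one

theorem psi_int {x : AQ} (h : ∀ p : Nat.Primes, ‖x.2 p‖ ≤ 1) :
    psi x = Real.fourierChar x.1 := by
  rw [psi_eq (q := 0) (fun p => by rw [Rat.cast_zero, sub_zero]; exact h p), Rat.cast_zero,
    sub_zero]

theorem continuous_psi : Continuous psi := by
  have hopen : IsOpen {x : AQ | ∀ p : Nat.Primes,
      x.2 p ∈ (PadicInt.subring p : Subring ℚ_[p])} := by
    have h1 : IsOpen {f : Af | ∀ p : Nat.Primes, f p ∈ (PadicInt.subring p : Subring ℚ_[p])} :=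
      RestrictedProduct.isOpen_forall_mem (R := fun p : Nat.Primes => ℚ_[p])
        (A := fun p : Nat.Primes => ((PadicInt.subring p : Subring ℚ_[p]) : Set ℚ_[p]))
        (Fact.out : ∀ p : Nat.Primes, IsOpen ((PadicInt.subring p : Subring ℚ_[p]) : Set ℚ_[p]))
    exact h1.preimage continuous_snd
  have h0 : ContinuousAt psi 0 := by
    have h2 : Continuous fun x : AQ => Real.fourierChar x.1 :=
      Real.continuous_fourierChar.comp continuous_fst
    refine h2.continuousAt.congr ?_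
    filter_upwards [hopen.mem_nhds (show (0 : AQ) ∈ _ from fun p => zero_mem _)] with x hx
    exact (psi_int hx).symm
  rw [continuous_iff_continuousAt]
  intro x
  have h3 : psi = fun y => psi x * psi (y - x) := by
    funext y
    rw [← psi_add, add_sub_cancel]
  rw [h3]
  refine continuousAt_const.mul ?_
  have h4 : Continuous fun y : AQ => y - x := continuous_id.sub continuous_const
  have h5 : ContinuousAt psi ((fun y : AQ => y - x) x) := by
    have h6 : (fun y : AQ => y - x) x = 0 := sub_self x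
    rw [h6]
    exact h0
  exact ContinuousAt.comp (f := fun y : AQ => y - x) h5 h4.continuousAt

theorem at7_fst (x : ℚ_[p7]) : (at7 x).1 = 0 := rfl

theorem at7_same (x : ℚ_[p7]) : (at7 x).2 p7 = x := by
  classical
  exact RestrictedProduct.single_eq_same _ _ _

theorem at7_ne (x : ℚ_[p7]) {p : Nat.Primes} (h : p ≠ p7) : (at7 x).2 p = 0 := by
  classical
  exact RestrictedProduct.single_eq_of_ne _ _ h

theorem at7_add (x y : ℚ_[p7]) : at7 (x + y) = at7 x + at7 y := by
  classical
  rw [at7, at7, at7, RestrictedProduct.single_add, Prod.mk_add_mk, add_zero]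

theorem at7_neg (x : ℚ_[p7]) : at7 (-x) = -at7 x := by
  classical
  rw [at7, at7, RestrictedProduct.single_neg, Prod.neg_mk, neg_zero]

theorem psi_at7 (x : ℚ_[p7]) : psi (at7 x) = 1 ↔ ‖x‖ ≤ 1 := by
  constructor
  · intro h
    have h1 := ratPart_spec (at7 x).2 p7
    rw [at7_same] at h1
    rw [psi, at7_fst, Real.fourierChar_apply', Circle.exp_eq_one] at h
    obtain ⟨n, hn⟩ := h
    have hpi := Real.pi_pos.ne'
    have h2 : (ratPart (at7 x).2 : ℝ) = ((-n : ℤ) : ℝ) := by
      have h3 : 2 * Real.pi * (0 - (ratPart (at7 x).2 : ℝ)) = 2 * Real.pi * (n : ℝ) := by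
        rw [hn]
        ring
      have h4 := mul_left_cancel₀ (mul_ne_zero two_ne_zero hpi) h3
      push_cast
      linarith
    have h5 : ratPart (at7 x).2 = ((-n : ℤ) : ℚ) := by exact_mod_cast h2
    rw [h5] at h1
    have h6 : x = (x - ((((-n : ℤ) : ℚ)) : ℚ_[p7])) + (((-n : ℤ)) : ℚ_[p7]) := by
      push_cast
      ring
    rw [h6]
    exact (PadicInt.subring p7 : Subring ℚ_[p7]).add_mem h1 (Padic.norm_int_le_one (-n))
  · intro h
    rw [psi_int (fun p => ?_), at7_fst, AddChar.map_zero_eq_one]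
    by_cases hp : p = p7
    · subst hp
      rw [at7_same]
      exact h
    · rw [at7_ne x hp, norm_zero]
      exact zero_le_one

theorem psi_split {x : AQ} (h : ∀ p : Nat.Primes, p ≠ p7 → ‖x.2 p‖ ≤ 1) :
    psi x = Real.fourierChar x.1 * psi (at7 (x.2 p7)) := by
  have h1 : x = (x - at7 (x.2 p7)) + at7 (x.2 p7) := (sub_add_cancel _ _).symm
  have h2 : psi (x - at7 (x.2 p7)) = Real.fourierChar x.1 := by
    rw [psi_int (fun p => ?_)]
    · rw [Prod.fst_sub, at7_fst, sub_zero]
    · have h3 : (x - at7 (x.2 p7)).2 p = x.2 p - (at7 (x.2 p7)).2 p := rfl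
      rw [h3]
      by_cases hp : p = p7
      · subst hp
        rw [at7_same, sub_self, norm_zero]
        exact zero_le_one
      · rw [at7_ne _ hp, sub_zero]
        exact h p hp
  calc psi x = psi ((x - at7 (x.2 p7)) + at7 (x.2 p7)) := by rw [← h1]
    _ = _ := by rw [psi_add, h2]

end Pool.Agent.MPabcfcd
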