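import Pool.Agent.Lib.MP_abcfcd_nt.W.Basic
import Pool.Agent.Lib.MP_abcfcd_nt.Auto
import Pool.Agent.Lib.MP_abcfcd_nt.Q.Dom

/-!
# Invariant probability measures on compact quotients by discrete subgroups

PROOF. `exists_invProb`: let `μ` be a left Haar measure on `V` and `ρ` its image under inversion (a
right invariant measure, `Measure.inv`), a Radon measure. `W` is countable and discrete; there is a
measurable set `D ⊆ V` which meets every coset `v W` in exactly one point: `V` is a countable union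
of
open sets `U_n` with compact closure and `U_n⁻¹ U_n ∩ W = {1}`; `D = ⋃_n (U_n \ ⋃_{i<n} U_i W)`.
(See also
the file Q/Dom.lean of this folder, which has such a fundamental domain.) `V = K W` with `K`
compact.
Let `m = (ρ.restrict D).map mk`, a measure on `V ⧸ W`. It is finite: `ρ(D) ≤ ρ(K W ∩ D)`; choose `D`
inside a set of finite measure, or: `D` is covered by countably many pieces `D ∩ K w`, which
translate
by `w⁻¹` into disjoint subsets of `K` (disjoint because `D` meets each coset once), so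
`ρ(D) ≤ ρ(K) < ∞`, and `ρ(D) > 0` since `V = ⋃ D w`. For another such set `D'` the measure is the
same (decompose into `D ∩ D' w`, right invariance). For `g ∈ V`, `g D` is again such a set, and
`ρ(g E) = Δ(g) ρ(E)` for a number `Δ(g) > 0` (uniqueness of the right Haar measure: `E ↦ ρ(g E)` is
right
invariant). So `m (g A) = Δ(g) m(A)` for all measurable `A`; with `A` = everything `Δ(g) = 1` (`m`
is finite
and not zero). Normalise `m`. `InvProb.openPos`: a nonempty open set `U`: the sets `g • U` cover the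
compact space, finitely many suffice, all have the measure of `U`, the total measure is `1`.
`InvProb.smul_int`: the integral is invariant under translations (`integral_map`).
-/

set_option autoImplicit false

open Matrix MeasureTheory Topology
open scoped Pointwise
open scoped ENNReal NNReal ComplexConjugate RestrictedProduct

namespace Pool.Agent.MPabcfcd

variable {V : Type} [Group V] [TopologicalSpace V] [IsTopologicalGroup V]
  [LocallyCompactSpace V] [T2Space V] [SecondCountableTopology V] [MeasurableSpace V]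
  [BorelSpace V] {W : Subgroup V}

omit [IsTopologicalGroup V] [LocallyCompactSpace V] [T2Space V] [SecondCountableTopology V]
  [TopologicalSpace V] [BorelSpace V] in
private theorem prob_isFD [Countable W] {F : Set V} (hF : MeasurableSet F)
    (hF1 : ∀ g : V, ∃! γ : W, g * (γ : V) ∈ F) (μ : Measure V) :
    IsFundamentalDomain W.op F μ := by
  refine IsFundamentalDomain.mk' hF.nullMeasurableSet fun x => ?_
  obtain ⟨γ, hγ, hγu⟩ := hF1 x
  refine ⟨⟨MulOpposite.op (γ : V), by simp⟩, hγ, fun δ hδ => ?_⟩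
  obtain ⟨δ, hδm⟩ := δ
  have h1 : MulOpposite.unop δ ∈ W := Subgroup.mem_op.1 hδm
  have h2 := hγu ⟨MulOpposite.unop δ, h1⟩ hδ
  apply Subtype.ext
  show δ = MulOpposite.op (γ : V)
  rw [← h2]
  rfl

private theorem prob_left (μ : Measure V) [μ.IsHaarMeasure] (g : V) :
    ∃ c : ℝ≥0, (μ.inv).map (fun x => g * x) = c • μ.inv := by
  have hm : Measurable fun x : V => x * g⁻¹ := (continuous_mul_const g⁻¹).measurable
  have hgm : Measurable fun x : V => g * x := (continuous_const_mul g).measurable
  have hi : Measurable fun x : V => x⁻¹ := continuous_inv.measurable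
  have : IsFiniteMeasureOnCompacts (μ.map (fun x => x * g⁻¹)) :=
    Measure.IsFiniteMeasureOnCompacts.map μ (Homeomorph.mulRight g⁻¹)
  have h1 := Measure.isMulLeftInvariant_eq_smul (μ.map (fun x => x * g⁻¹)) μ
  refine ⟨(μ.map (fun x => x * g⁻¹)).haarScalarFactor μ, ?_⟩
  rw [Measure.inv, Measure.map_map hgm hi]
  have e : (fun x : V => g * x) ∘ (fun x : V => x⁻¹) = (fun x : V => x⁻¹) ∘ fun x => x * g⁻¹ := by
    funext x
    simp
  change Measure.map ((fun x : V => g * x) ∘ fun x : V => x⁻¹) μ = _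
  rw [e, ← Measure.map_map hi hm]
  conv_lhs => rw [h1]
  rw [Measure.map_smul]

private theorem prob_countable (hd : Har.Dis W) : Countable W := by
  have h : (W : Set V) = ⋃ n, (compactCovering V n ∩ (W : Set V)) := by
    rw [← Set.iUnion_inter, iUnion_compactCovering, Set.univ_inter]
  have h2 : (W : Set V).Countable := by
    rw [h]
    exact Set.countable_iUnion fun n => (hd _ (isCompact_compactCovering V n)).countable
  exact h2.to_subtype

private theorem prob_nhds (hd : Har.Dis W) : ∃ U ∈ 𝓝 (1 : V), ∀ γ ∈ W, γ ∈ U → γ = 1 := by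
  obtain ⟨K, hK, hK1⟩ := exists_compact_mem_nhds (1 : V)
  have hf := hd K hK
  have hf2 : ((K ∩ (W : Set V)) \ {1}).Finite := hf.subset Set.sdiff_subset
  refine ⟨K \ ((K ∩ (W : Set V)) \ {1}), ?_, ?_⟩
  · refine Filter.inter_mem hK1 (hf2.isClosed.isOpen_compl.mem_nhds ?_)
    exact fun h => h.2 rfl
  · rintro γ hγ ⟨h1, h2⟩
    by_contra h3
    exact h2 ⟨⟨h1, hγ⟩, h3⟩

private theorem prob_compact [CompactSpace (V ⧸ W)] :
    ∃ K : Set V, IsCompact K ∧ ∀ x : V, ∃ k ∈ K, (QuotientGroup.mk k : V ⧸ W) = x := by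
  choose N hN hN1 using fun x : V => exists_compact_mem_nhds x
  have hop : ∀ x : V, IsOpen ((fun y : V => (QuotientGroup.mk y : V ⧸ W)) '' interior (N x)) :=
    fun x => QuotientGroup.isOpenMap_coe _ isOpen_interior
  obtain ⟨t, ht⟩ := isCompact_univ.elim_finite_subcover
    (fun x : V => (fun y : V => (QuotientGroup.mk y : V ⧸ W)) '' interior (N x)) hop (by
      intro q _
      obtain ⟨x, rfl⟩ := QuotientGroup.mk_surjective q
      exact Set.mem_iUnion.2 ⟨x, x, mem_interior_iff_mem_nhds.2 (hN1 x), rfl⟩)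
  refine ⟨⋃ x ∈ t, N x, t.isCompact_biUnion fun x _ => hN x, fun x => ?_⟩
  have h1 := ht (Set.mem_univ (QuotientGroup.mk x : V ⧸ W))
  simp only [Set.mem_iUnion] at h1
  obtain ⟨y, hy, k, hk, hkx⟩ := h1
  exact ⟨k, Set.mem_biUnion hy (interior_subset hk), hkx⟩

theorem exists_invProb (hd : Har.Dis W) [CompactSpace (V ⧸ W)] [T2Space (V ⧸ W)]
    [BorelSpace (V ⧸ W)] : ∃ ν : Measure (V ⧸ W), InvProb ν := by
  have : Countable W := prob_countable hd
  obtain ⟨D, hD, hD1⟩ := exists_borel_transversal W (prob_nhds hd)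
  obtain ⟨K, hK, hK1⟩ := prob_compact (V := V) (W := W)
  set μ : Measure V := Measure.haar with hμ
  set ρ : Measure V := μ.inv with hρ
  have hfd := prob_isFD hD hD1 ρ
  have : Countable W.op := Countable.of_equiv W W.equivOp
  have hρK : ρ K < ⊤ := by
    rw [hρ, Measure.inv_apply]
    exact hK.inv.measure_lt_top
  have hρ0 : ρ ≠ 0 := by
    intro h
    have h1 : ρ Set.univ = 0 := by rw [h]; rfl
    rw [hρ, Measure.inv_apply, Set.inv_univ] at h1
    exact (NeZero.ne μ) (Measure.measure_univ_eq_zero.1 h1)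
  have hDf : ρ D < ⊤ := by
    refine lt_of_le_of_lt ?_ hρK
    rw [hfd.measure_eq_tsum K]
    have hsub : D ⊆ ⋃ γ : W.op, (γ • K ∩ D) := by
      intro x hx
      obtain ⟨k, hk, hkx⟩ := hK1 x
      rw [QuotientGroup.eq] at hkx
      refine Set.mem_iUnion.2 ⟨⟨MulOpposite.op (k⁻¹ * x), Subgroup.mem_op.2 hkx⟩, ?_, hx⟩
      refine ⟨k, hk, ?_⟩
      change k * (k⁻¹ * x) = x
      rw [mul_inv_cancel_left]
    exact (measure_mono hsub).trans (measure_iUnion_le _)
  have hD0 : ρ D ≠ 0 := hfd.measure_ne_zero hρ0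
  set m : Measure (V ⧸ W) := (ρ.restrict D).map QuotientGroup.mk with hm
  have hmk : Measurable (QuotientGroup.mk : V → V ⧸ W) := QuotientGroup.continuous_mk.measurable
  have hmA : ∀ A : Set (V ⧸ W), MeasurableSet A →
      m A = ρ ((QuotientGroup.mk : V → V ⧸ W) ⁻¹' A ∩ D) := fun A hA => by
    rw [hm, Measure.map_apply hmk hA, Measure.restrict_apply (hmk hA)]
  have hmu : m Set.univ = ρ D := by rw [hmA _ MeasurableSet.univ, Set.preimage_univ, Set.univ_inter]
  have hcov : ∀ g : V, ∃ c : ℝ≥0, m.map (fun x => g • x) = c • m := by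
    intro g
    obtain ⟨c, hc⟩ := prob_left μ g
    refine ⟨c, Measure.ext fun A hA => ?_⟩
    have hgm : Measurable fun x : V ⧸ W => g • x := measurable_const_smul g
    have hgm' : Measurable fun x : V => g * x := (continuous_const_mul g).measurable
    rw [Measure.map_apply hgm hA, hmA _ (hgm hA)]
    have hgD : MeasurableSet ((fun x : V => g⁻¹ * x) ⁻¹' D) :=
      (continuous_const_mul g⁻¹).measurable hD
    have hfd2 : IsFundamentalDomain W.op ((fun x : V => g⁻¹ * x) ⁻¹' D) ρ := by
      refine prob_isFD hgD (fun x => ?_) ρ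
      have := hD1 (g⁻¹ * x)
      simpa only [Set.mem_preimage, mul_assoc] using this
    have e1 : (QuotientGroup.mk : V → V ⧸ W) ⁻¹' ((fun x : V ⧸ W => g • x) ⁻¹' A) ∩ D
        = (fun x : V => g * x) ⁻¹' ((QuotientGroup.mk : V → V ⧸ W) ⁻¹' A ∩
          (fun x : V => g⁻¹ * x) ⁻¹' D) := by
      ext x
      simp only [Set.mem_inter_iff, Set.mem_preimage, inv_mul_cancel_left]
      rfl
    have hAm : MeasurableSet ((QuotientGroup.mk : V → V ⧸ W) ⁻¹' A) := hmk hA
    rw [e1, ← Measure.map_apply hgm' (hAm.inter hgD), hc, Measure.smul_apply,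
      Measure.smul_apply, hmA A hA]
    congr 1
    refine hfd2.measure_set_eq hfd hAm fun γ => ?_
    ext x
    simp only [Set.mem_preimage]
    have e2 : (QuotientGroup.mk (γ • x) : V ⧸ W) = QuotientGroup.mk x := by
      obtain ⟨γ, hγ⟩ := γ
      rw [QuotientGroup.eq]
      change (x * MulOpposite.unop γ)⁻¹ * x ∈ W
      rw [_root_.mul_inv_rev, inv_mul_cancel_right]
      exact W.inv_mem (Subgroup.mem_op.1 hγ)
    rw [e2]
  have hinv : ∀ g : V, m.map (fun x => g • x) = m := by
    intro g
    obtain ⟨c, hc⟩ := hcov g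
    have h1 : m Set.univ = c * m Set.univ := by
      have h2 : (m.map (fun x => g • x)) Set.univ = (c • m) Set.univ := by rw [hc]
      rw [Measure.map_apply (measurable_const_smul g) MeasurableSet.univ, Set.preimage_univ,
        Measure.smul_apply] at h2
      exact h2
    have h3 : (c : ℝ≥0∞) = 1 := by
      have h4 : (1 : ℝ≥0∞) * m Set.univ = c * m Set.univ := by rw [one_mul]; exact h1
      rw [hmu] at h4
      exact ((ENNReal.mul_left_inj hD0 hDf.ne).1 h4).symm
    have h5 : c = 1 := by exact_mod_cast h3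
    rw [hc, h5, one_smul]
  refine ⟨(ρ D)⁻¹ • m, ⟨?_⟩, fun g => ?_⟩
  · rw [Measure.smul_apply, hmu, smul_eq_mul, ENNReal.inv_mul_cancel hD0 hDf.ne]
  · rw [Measure.map_smul, hinv g]

theorem InvProb.openPos [CompactSpace (V ⧸ W)] [BorelSpace (V ⧸ W)] {ν : Measure (V ⧸ W)}
    (h : InvProb ν) : ν.IsOpenPosMeasure := by
  have := h.prob
  refine ⟨fun U hU hne h0 => ?_⟩
  obtain ⟨u, hu⟩ := hne
  have hop : ∀ g : V, IsOpen ((fun x : V ⧸ W => g • x) ⁻¹' U) := fun g =>
    hU.preimage (continuous_const_smul g)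
  obtain ⟨t, ht⟩ := isCompact_univ.elim_finite_subcover
    (fun g : V => (fun x : V ⧸ W => g • x) ⁻¹' U) hop (by
      intro q _
      obtain ⟨x, rfl⟩ := QuotientGroup.mk_surjective q
      obtain ⟨y, rfl⟩ := QuotientGroup.mk_surjective u
      refine Set.mem_iUnion.2 ⟨y * x⁻¹, ?_⟩
      change (QuotientGroup.mk (y * x⁻¹ * x) : V ⧸ W) ∈ U
      rw [inv_mul_cancel_right]
      exact hu)
  have h1 : ∀ g : V, ν ((fun x : V ⧸ W => g • x) ⁻¹' U) = 0 := by
    intro g
    rw [← Measure.map_apply (measurable_const_smul g) hU.measurableSet, h.inv g]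
    exact h0
  have h2 : ν Set.univ = 0 := by
    refine measure_mono_null ht ?_
    exact (measure_biUnion_null_iff t.countable_toSet).2 fun g _ => h1 g
  rw [measure_univ] at h2
  exact one_ne_zero h2

theorem InvProb.int_smul [BorelSpace (V ⧸ W)] {ν : Measure (V ⧸ W)} (h : InvProb ν)
    (f : V ⧸ W → ℂ) (g : V) : ∫ x, f (g • x) ∂ν = ∫ x, f x ∂ν := by
  have hmp : MeasurePreserving (fun x : V ⧸ W => g • x) ν ν :=
    ⟨measurable_const_smul g, h.inv g⟩
  exact hmp.integral_comp (MeasurableEquiv.smul g).measurableEmbedding f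

end Pool.Agent.MPabcfcd
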