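import Pool.Agent.Lib.MP_abcfcd_nt.N.Ch
import Pool.Agent.Lib.MP_abcfcd_nt.N.Prob
import Pool.Agent.Lib.MP_abcfcd_nt.W.Main

/-!
# The period of a nilpotent element

PROOF. `qj` is the map induced by the inclusion `t.V → U7 AQ` on the quotients (`Quotient.map'` or
`QuotientGroup` lift; here with `out`: `qj x = mk x.out`); `qj_mk`: `mk v.out = mk v` since the
representatives differ by an element of `t.VQ`. `qw x = t.ch x.out`; `qw_mk` by `ch_mul`, `ch_gam`.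
Both are
continuous because `mk : t.V → t.V ⧸ t.VQ` is a quotient map. `coef_eq`: definition,
`g⁻¹ • mk v = mk (g⁻¹ v)`. `coef_trans`: let `u ∈ t.V`, `l = g⁻¹ u g` and suppose `F (l⁻¹ • x) = c
F x`
for all `x`, i.e. `F (l • x) = c⁻¹ F x`. By invariance (`InvProb.int_smul` for the translation by
`u`)
`coef F g = ∫ F (mk (g⁻¹ u v)) ch (u v) = ch u ∫ F (l • mk (g⁻¹ v)) ch v = ch u * c⁻¹ * coef F g`.
So if
`coef F g ≠ 0` then `ch u = c`.
-/

set_option autoImplicit false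

open Matrix MeasureTheory Topology
open scoped ENNReal NNReal ComplexConjugate RestrictedProduct

namespace Pool.Agent.MPabcfcd

/-- The map `V_X(𝔸) / V_X(ℚ) → G(𝔸) / G(ℚ)`. -/
noncomputable def Sl2.qj (t : Sl2) (x : t.V ⧸ t.VQ) : GX :=
  QuotientGroup.mk (x.out : U7 AQ)

/-- The character on the quotient. -/
noncomputable def Sl2.qw (t : Sl2) (x : t.V ⧸ t.VQ) : ℂ := (t.ch (x.out : U7 AQ) : ℂ)

private theorem cycA (t : Sl2) (v : t.V) : ∃ h : t.VQ,
    (((QuotientGroup.mk v : t.V ⧸ t.VQ).out : t.V) : U7 AQ) =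
      (v : U7 AQ) * ((h : t.V) : U7 AQ) := by
  obtain ⟨h, hh⟩ := QuotientGroup.mk_out_eq_mul t.VQ v
  exact ⟨h, congrArg (fun z : t.V => (z : U7 AQ)) hh⟩

theorem qj_mk (t : Sl2) (v : t.V) : t.qj (QuotientGroup.mk v) = QuotientGroup.mk (v : U7 AQ) := by
  obtain ⟨h, hh⟩ := cycA t v
  have h2 : ((h : t.V) : U7 AQ) ∈ Gam := h.2
  show (QuotientGroup.mk (((QuotientGroup.mk v : t.V ⧸ t.VQ).out : t.V) : U7 AQ) : GX) = _
  rw [hh]
  exact QuotientGroup.mk_mul_of_mem _ h2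

theorem qw_mk (t : Sl2) (v : t.V) : t.qw (QuotientGroup.mk v) = (t.ch (v : U7 AQ) : ℂ) := by
  obtain ⟨h, hh⟩ := cycA t v
  have h2 : ((h : t.V) : U7 AQ) ∈ Gam := h.2
  show ((t.ch (((QuotientGroup.mk v : t.V ⧸ t.VQ).out : t.V) : U7 AQ) : Circle) : ℂ) = _
  rw [hh, ch_mul t v.2 (h : t.V).2, ch_gam t h2, mul_one]

theorem continuous_qj (t : Sl2) : Continuous t.qj := by
  rw [(QuotientGroup.isQuotientMap_mk t.VQ).continuous_iff]
  have h : t.qj ∘ (QuotientGroup.mk : t.V → t.V ⧸ t.VQ) =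
      fun v : t.V => (QuotientGroup.mk (v : U7 AQ) : GX) := funext fun v => qj_mk t v
  rw [h]
  exact QuotientGroup.continuous_mk.comp continuous_subtype_val

theorem continuous_qw (t : Sl2) : Continuous t.qw := by
  rw [(QuotientGroup.isQuotientMap_mk t.VQ).continuous_iff]
  have h : t.qw ∘ (QuotientGroup.mk : t.V → t.V ⧸ t.VQ) =
      fun v : t.V => (t.ch (v : U7 AQ) : ℂ) := funext fun v => qw_mk t v
  rw [h]
  exact continuous_subtype_val.comp ((continuous_ch t).comp continuous_subtype_val)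

/-- The period of a nilpotent element. -/
noncomputable def Sl2.cyc (t : Sl2) (ν : Measure (t.V ⧸ t.VQ)) (hν : InvProb ν) : Har.Cyc GX where
  Y := t.V ⧸ t.VQ
  top := inferInstance
  cpt := inferInstance
  ms := inferInstance
  bs := inferInstance
  ν := ν
  fin := by
    have := hν.prob
    infer_instance
  j := t.qj
  hj := continuous_qj t
  w := t.qw
  hw := continuous_qw t

theorem coef_eq (t : Sl2) (ν : Measure (t.V ⧸ t.VQ)) (hν : InvProb ν) (F : GX → ℂ) (g : U7 AQ) :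
    t.coef ν F g = (t.cyc ν hν).per F g := rfl

private theorem coef_q (t : Sl2) (ν : Measure (t.V ⧸ t.VQ)) (F : GX → ℂ) (g : U7 AQ) :
    t.coef ν F g = ∫ y : t.V ⧸ t.VQ, F (g⁻¹ • t.qj y) * t.qw y ∂ν := rfl

theorem coef_trans (t : Sl2) {ν : Measure (t.V ⧸ t.VQ)} (hν : InvProb ν) {F : GX → ℂ}
    (g u : U7 AQ) (hu : u ∈ t.V) (c : ℂ) (hc : c ≠ 0)
    (hF : ∀ x, F ((g⁻¹ * u * g)⁻¹ • x) = c * F x) (h : t.coef ν F g ≠ 0) :
    (t.ch u : ℂ) = c := by
  have hF' : ∀ x, F ((g⁻¹ * u * g) • x) = c⁻¹ * F x := by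
    intro x
    have h1 := hF ((g⁻¹ * u * g) • x)
    rw [inv_smul_smul] at h1
    rw [h1, ← mul_assoc, inv_mul_cancel₀ hc, one_mul]
  have hp : ∀ y : t.V ⧸ t.VQ, F (g⁻¹ • t.qj ((⟨u, hu⟩ : t.V) • y)) * t.qw ((⟨u, hu⟩ : t.V) • y) =
      (c⁻¹ * (t.ch u : ℂ)) * (F (g⁻¹ • t.qj y) * t.qw y) := by
    intro y
    obtain ⟨v, rfl⟩ := QuotientGroup.mk_surjective y
    have e1 : (⟨u, hu⟩ : t.V) • (QuotientGroup.mk v : t.V ⧸ t.VQ) =
        QuotientGroup.mk ((⟨u, hu⟩ : t.V) * v) := rfl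
    have e2 : g⁻¹ • (QuotientGroup.mk (u * (v : U7 AQ)) : GX) =
        (g⁻¹ * u * g) • (g⁻¹ • (QuotientGroup.mk (v : U7 AQ) : GX)) := by
      have e3 : (QuotientGroup.mk (u * (v : U7 AQ)) : GX) =
          u • (QuotientGroup.mk (v : U7 AQ) : GX) := rfl
      rw [e3, smul_smul, smul_smul]
      congr 1
      group
    rw [e1, qj_mk, qw_mk, qj_mk, qw_mk]
    show F (g⁻¹ • (QuotientGroup.mk (u * (v : U7 AQ)) : GX)) * (t.ch (u * (v : U7 AQ)) : ℂ) = _
    rw [e2, hF', ch_mul t hu v.2, Circle.coe_mul]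
    ring
  have : SecondCountableTopology t.V :=
    TopologicalSpace.Subtype.secondCountableTopology (t.V : Set (U7 AQ))
  have h1 := InvProb.int_smul hν (fun y => F (g⁻¹ • t.qj y) * t.qw y) (⟨u, hu⟩ : t.V)
  simp only [hp] at h1
  rw [integral_const_mul, ← coef_q] at h1
  have h2 : c⁻¹ * (t.ch u : ℂ) = 1 := by
    have h3 : (c⁻¹ * (t.ch u : ℂ) - 1) * t.coef ν F g = 0 := by
      rw [sub_mul, h1, one_mul, sub_self]
    rcases mul_eq_zero.1 h3 with h4 | h4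
    · exact sub_eq_zero.1 h4
    · exact absurd h4 h
  calc (t.ch u : ℂ) = c * (c⁻¹ * (t.ch u : ℂ)) := by
        rw [← mul_assoc, mul_inv_cancel₀ hc, one_mul]
    _ = c := by rw [h2, mul_one]

end Pool.Agent.MPabcfcd
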