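import Mathlib

/-!
# Diagonalisation by integer eigenvalues

If `∏_{a ∈ S} (A - a) = 0` for a finite set `S` of integers, then the space is the sum of the
eigenspaces of `A` for `a ∈ S` (coprime factors), and these are independent; a basis of
eigenvectors gives `P`.
-/

set_option autoImplicit false

open Polynomial

namespace Pool.Agent.MPabcfcd

private theorem bas_ker {F : Type} [Field F] [CharZero F] {n : ℕ}
    (f : Module.End F (Fin n → F)) (T : Finset ℤ) :
    LinearMap.ker (aeval f (∏ a ∈ T, (X - C (a : F)))) ≤
      ⨆ a ∈ T, f.eigenspace (a : F) := by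
  classical
  induction T using Finset.induction_on with
  | empty =>
    intro x hx
    simp only [Finset.prod_empty, map_one, LinearMap.mem_ker, Module.End.one_apply] at hx
    rw [hx]
    exact Submodule.zero_mem _
  | insert a T ha ih =>
    rw [Finset.prod_insert ha, Finset.iSup_insert]
    have hco : IsCoprime (X - C (a : F)) (∏ b ∈ T, (X - C (b : F))) := by
      apply IsCoprime.prod_right
      intro b hb
      apply Polynomial.isCoprime_X_sub_C_of_isUnit_sub
      have hne : (a : F) - (b : F) ≠ 0 := by
        intro h0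
        have h1 : (a : F) = (b : F) := sub_eq_zero.mp h0
        have h2 : a = b := by exact_mod_cast h1
        exact ha (h2 ▸ hb)
      exact hne.isUnit
    rw [← Polynomial.sup_ker_aeval_eq_ker_aeval_mul_of_coprime f hco]
    refine sup_le_sup ?_ ih
    intro x hx
    rw [Module.End.mem_eigenspace_iff]
    have h1 : (f - algebraMap F (Module.End F (Fin n → F)) (a : F)) x = 0 := by
      simpa using hx
    rw [LinearMap.sub_apply, sub_eq_zero, Module.algebraMap_end_apply] at h1
    exact h1

theorem exists_diagonal {F : Type} [Field F] [CharZero F] {n : ℕ}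
    (A : Matrix (Fin n) (Fin n) F) (S : Finset ℤ)
    (h : aeval A (∏ a ∈ S, (X - C (a : F))) = 0) :
    ∃ (P Q : Matrix (Fin n) (Fin n) F) (a : Fin n → ℤ), P * Q = 1 ∧ Q * P = 1 ∧
      A * P = P * Matrix.diagonal (fun i => (a i : F)) := by
  classical
  set f : Module.End F (Fin n → F) := Matrix.toLinAlgEquiv' A with hf
  have hf0 : aeval f (∏ a ∈ S, (X - C (a : F))) = 0 := by
    rw [hf]
    have h1 := Polynomial.aeval_algHom_apply
      (Matrix.toLinAlgEquiv' (R := F) (n := Fin n)).toAlgHom A (∏ a ∈ S, (X - C (a : F)))
    rw [h] at h1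
    simpa using h1
  have htop : (⨆ a : S, f.eigenspace ((a : ℤ) : F)) = ⊤ := by
    rw [eq_top_iff]
    have h1 := bas_ker f S
    rw [hf0, LinearMap.ker_zero] at h1
    refine h1.trans (le_of_eq ?_)
    exact iSup_subtype' (f := fun (a : ℤ) (_ : a ∈ S) => f.eigenspace (a : F))
  have hind : iSupIndep (fun a : S => f.eigenspace ((a : ℤ) : F)) := by
    have h1 := Module.End.eigenspaces_iSupIndep f
    have hinj : Function.Injective (fun a : S => ((a : ℤ) : F)) := by
      intro x y hxy
      apply Subtype.ext
      have h2 : ((x : ℤ) : F) = ((y : ℤ) : F) := hxy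
      exact_mod_cast h2
    exact h1.comp hinj
  have hint : DirectSum.IsInternal (fun a : S => f.eigenspace ((a : ℤ) : F)) :=
    DirectSum.isInternal_submodule_of_iSupIndep_of_iSup_eq_top hind htop
  let b0 := hint.collectedBasis
    (fun a : S => Module.finBasis F (f.eigenspace ((a : ℤ) : F)))
  have hcard : Fintype.card
      (Σ a : S, Fin (Module.finrank F (f.eigenspace ((a : ℤ) : F)))) = n := by
    have h1 := Module.finrank_eq_card_basis b0
    rw [Module.finrank_fin_fun] at h1
    exact h1.symm
  let e := Fintype.equivFinOfCardEq hcard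
  let b := b0.reindex e
  have hb : ∀ i : Fin n, f (b i) = (((e.symm i).1 : ℤ) : F) • b i := by
    intro i
    have h1 : b i ∈ f.eigenspace ((((e.symm i).1 : ℤ)) : F) := by
      rw [Module.Basis.reindex_apply]
      exact hint.collectedBasis_mem _ _
    exact Module.End.mem_eigenspace_iff.mp h1
  let P : Matrix (Fin n) (Fin n) F := (Pi.basisFun F (Fin n)).toMatrix b
  let Q : Matrix (Fin n) (Fin n) F := b.toMatrix (Pi.basisFun F (Fin n))
  refine ⟨P, Q, fun i => ((e.symm i).1 : ℤ), ?_, ?_, ?_⟩
  · exact Module.Basis.toMatrix_mul_toMatrix_flip _ _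
  · exact Module.Basis.toMatrix_mul_toMatrix_flip _ _
  · ext i j
    rw [Matrix.mul_diagonal, Matrix.mul_apply]
    have h1 := congrFun (hb j) i
    have h2 : f (b j) = A.mulVec (b j) := by
      rw [hf]
      exact Matrix.toLin'_apply A (b j)
    rw [h2] at h1
    simp only [Matrix.mulVec, dotProduct, Pi.smul_apply, smul_eq_mul] at h1
    have hP : ∀ k l, P k l = b l k := by
      intro k l
      simp [P, Module.Basis.toMatrix_apply]
    simp only [hP]
    rw [h1, mul_comm]

end Pool.Agent.MPabcfcd
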