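import Pool.Agent.Lib.MP_abcfcd_nt.N.Ker

/-!
# Bounds of the weights

`v ≠ 0`, `h v = a v`, `f^(n+1) = 0`, `e` nilpotent. Upper bound: let `k` be maximal with `e^k v
≠ 0`; `x = e^k v ∈ ker e`, `h x = (a + 2k) x`; by `h_ker` (`N = n + 1`) `a + 2k` is one of `0,
..., n`; so `a ≤ n`. Lower bound: let `k` be maximal with `f^k v ≠ 0`, `y = f^k v`, `f y = 0`,
`h y = (a - 2k) y`. For the triple `(f, -h, e)` (`SlT.symm`) and `e^M = 0`: `-(a - 2k)` is a
natural number `l` (`h_ker`). By `ef_ker` for this triple `f^l e^l y = l! ∏_{j<l} (l - j) y ≠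
0`, so `f^l ≠ 0` and `l ≤ n`; so `a ≥ a - 2k = -l ≥ -n`.
-/

set_option autoImplicit false

open Polynomial

namespace Pool.Agent.MPabcfcd

section
variable {F V : Type} [Field F] [CharZero F] [AddCommGroup V] [Module F V]
  {e h f : Module.End F V}

omit [CharZero F] in
private theorem bound_aeval {h : Module.End F V} {c : F} {v : V} (hv : v ≠ 0) (hc : h v = c • v)
    (N : ℕ) : aeval h (∏ j ∈ Finset.range N, (X - C (j : F))) v =
      (∏ j ∈ Finset.range N, (c - (j : F))) • v := by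
  have h1 : h.HasEigenvector c v := ⟨Module.End.mem_eigenspace_iff.2 hc, hv⟩
  rw [Module.End.aeval_apply_of_hasEigenvector h1, eval_prod]
  simp

private theorem bound_prim (t : SlT e h f) {N : ℕ} (hf : f ^ N = 0) {a : ℤ} {v : V} (hv : v ≠ 0)
    (hev : e v = 0) (ha : h v = (a : F) • v) : ∃ j : ℕ, j < N ∧ a = j := by
  have h1 := t.h_ker hf v hev
  rw [bound_aeval hv ha] at h1
  have h2 := (smul_eq_zero.1 h1).resolve_right hv
  obtain ⟨j, hj, h3⟩ := Finset.prod_eq_zero_iff.1 h2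
  refine ⟨j, Finset.mem_range.1 hj, ?_⟩
  have h4 : (a : F) = ((j : ℤ) : F) := by
    rw [Int.cast_natCast]
    exact sub_eq_zero.1 h3
  exact Int.cast_injective h4

omit [CharZero F] in
private theorem bound_shift (t : SlT e h f) {a : ℤ} {v : V} (ha : h v = (a : F) • v) (k : ℕ) :
    h ((e ^ k) v) = ((a + 2 * k : ℤ) : F) • (e ^ k) v := by
  have h1 : h ((e ^ k) v) = (e ^ k) (h v + (2 * (k : Module.End F V)) v) :=
    congrArg (fun T : Module.End F V => T v) (t.h_e_pow k)
  have h2 : (2 * (k : Module.End F V)) v = ((2 * k : ℤ) : F) • v := by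
    have h3 : (2 * (k : Module.End F V)) v = ((2 * k : ℕ) : Module.End F V) v := by
      push_cast
      rfl
    rw [h3, Module.End.natCast_apply, ← Nat.cast_smul_eq_nsmul F]
    push_cast
    rfl
  rw [h1, h2, ha, ← add_smul, map_smul]
  push_cast
  rfl

omit [CharZero F] in
private theorem bound_max (he : IsNilpotent e) {v : V} (hv : v ≠ 0) :
    ∃ k : ℕ, (e ^ k) v ≠ 0 ∧ e ((e ^ k) v) = 0 := by
  classical
  obtain ⟨M, hM⟩ := he
  have hex : ∃ m : ℕ, (e ^ m) v = 0 := ⟨M, by rw [hM, LinearMap.zero_apply]⟩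
  obtain ⟨m, hm⟩ : ∃ m, Nat.find hex = m := ⟨_, rfl⟩
  have h1 := Nat.find_spec hex
  rw [hm] at h1
  cases m with
  | zero => exact absurd h1 hv
  | succ k =>
    refine ⟨k, Nat.find_min hex (by omega), ?_⟩
    have h2 : (e ^ (k + 1)) v = e ((e ^ k) v) := by
      rw [pow_succ']
      rfl
    rw [← h2]
    exact h1

theorem SlT.bound (t : SlT e h f) (he : IsNilpotent e) {n : ℕ} (hf : f ^ (n + 1) = 0) (a : ℤ)
    (v : V) (hv : v ≠ 0) (ha : h v = (a : F) • v) : |a| ≤ n := by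
  obtain ⟨k, hk1, hk2⟩ := bound_max he hv
  obtain ⟨j, hj1, hj2⟩ := bound_prim t hf hk1 hk2 (bound_shift t ha k)
  have hfn : IsNilpotent f := ⟨n + 1, hf⟩
  obtain ⟨M, hM⟩ := he
  obtain ⟨m, hm1, hm2⟩ := bound_max hfn hv
  have ha' : (-h) v = ((-a : ℤ) : F) • v := by
    rw [LinearMap.neg_apply, ha, Int.cast_neg, neg_smul]
  have hs := bound_shift t.symm ha' m
  obtain ⟨l, hl1, hl2⟩ := bound_prim t.symm hM hm1 hm2 hs
  have h5 := t.symm.ef_ker l _ hm2
  rw [bound_aeval hm1 hs, hl2] at h5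
  have h6 : l < n + 1 := by
    by_contra hcon
    rw [pow_eq_zero_of_le (by omega) hf, LinearMap.zero_apply] at h5
    have h7 := (smul_eq_zero.1 h5.symm).resolve_left (Nat.cast_ne_zero.2 l.factorial_ne_zero)
    have h8 := (smul_eq_zero.1 h7).resolve_right hm1
    obtain ⟨i, hi, h9⟩ := Finset.prod_eq_zero_iff.1 h8
    have h10 : ((l : ℕ) : F) = ((i : ℕ) : F) := by
      have := sub_eq_zero.1 h9
      rwa [Int.cast_natCast] at this
    have h11 := Nat.cast_injective h10
    have h12 := Finset.mem_range.1 hi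
    omega
  rw [abs_le]
  constructor <;> omega

end

end Pool.Agent.MPabcfcd
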