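import Pool.Agent.Lib.MP_abcfcd_nt.N.Ker

/-!
# The Casimir element

`cas = 4 f e + h² + 2 h` commutes with `e`, `f`, `h`, and on `ker e` it is `h (h + 2)`.
With `m = ∏_{j<N} (X - j (j + 2))`: on `ker e`, `∏_{j<N} (h - j) = 0`, so `m(cas) = ∏ (h - j)(h + j + 2)`
is zero (`X (X + 2) - j (j + 2) = (X - j) (X + j + 2)`). If `v ∈ ker e^(k+1)` then
`e^k m(cas) v = m(cas) e^k v = 0`, so `m(cas) v ∈ ker e^k`; by induction `m(cas)^N = 0`.
-/

set_option autoImplicit false

open Polynomial

namespace Pool.Agent.MPabcfcd

section
variable {F V : Type} [Field F] [CharZero F] [AddCommGroup V] [Module F V]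
  {e h f : Module.End F V}

/-- The Casimir element. -/
def cas (e h f : Module.End F V) : Module.End F V := 4 * (f * e) + h * h + 2 * h

theorem SlT.cas_comm_e (t : SlT e h f) : Commute (cas e h f) e := by
  have h1 : h * e = e * h + 2 * e := by
    rw [← t.he]; abel
  have h3 : e * f = f * e + h := by
    rw [← t.ef]; abel
  show cas e h f * e = e * cas e h f
  have c2 : ∀ x : Module.End F V, x * 2 = 2 * x := fun x => by
    rw [mul_two, two_mul]
  have c4 : ∀ x : Module.End F V, x * 4 = 4 * x := fun x =>
    (Nat.cast_commute 4 x).symm.eq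
  have a1 : h * h * e = e * h * h + 4 * (e * h) + 4 * e := by
    have : h * h * e = h * (h * e) := by noncomm_ring
    rw [this, h1, mul_add, ← mul_assoc h e h, h1, ← mul_assoc h 2 e, c2 h, mul_assoc 2 h e, h1]
    noncomm_ring
  have a2 : e * (f * e) = f * e * e + h * e := by
    rw [← mul_assoc, h3, add_mul]
  have a3 : e * cas e h f = 4 * (e * (f * e)) + e * h * h + 2 * (e * h) := by
    unfold cas
    rw [mul_add, mul_add, ← mul_assoc e 4, c4, mul_assoc 4 e, ← mul_assoc e 2, c2,
      mul_assoc 2 e, ← mul_assoc e h h]
  rw [a3, a2, h1]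
  unfold cas
  rw [add_mul, add_mul, a1, mul_assoc 2 h e, h1]
  noncomm_ring

theorem SlT.cas_comm_h (t : SlT e h f) : Commute (cas e h f) h := by
  have h1 : h * e = e * h + 2 * e := by
    rw [← t.he]; abel
  have h2 : h * f = f * h - 2 * f := by
    rw [sub_eq_add_neg, ← t.hf]; abel
  have key : Commute (f * e) h := by
    show f * e * h = h * (f * e)
    rw [← mul_assoc, h2, sub_mul, mul_assoc f h e, h1]
    noncomm_ring
  have k4 : Commute (4 * (f * e)) h := (Nat.cast_commute 4 h).mul_left key
  have k2 : Commute (2 * h) h := (Nat.cast_commute 2 h).mul_left (Commute.refl h)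
  exact (k4.add_left ((Commute.refl h).mul_left (Commute.refl h))).add_left k2

theorem cas_ker (e h f : Module.End F V) (v : V) (hv : e v = 0) :
    cas e h f v = h (h v) + (2 : F) • h v := by
  have h2 : (2 * h : Module.End F V) v = (2 : F) • h v := by
    rw [two_mul, LinearMap.add_apply, two_smul]
  have h4 : (4 * (f * e) : Module.End F V) v = 0 := by
    rw [Module.End.mul_apply, Module.End.mul_apply, hv, map_zero, map_zero]
  unfold cas
  rw [LinearMap.add_apply, LinearMap.add_apply, h2, h4, zero_add, Module.End.mul_apply]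

private theorem cas_poly_ker (t : SlT e h f) (p : F[X]) (v : V) (hv : e v = 0) :
    aeval (cas e h f) p v = aeval h (p.comp (X * X + C 2 * X)) v := by
  have hcomm : ∀ w : V, e w = 0 → e (cas e h f w) = 0 := by
    intro w hw
    have := congrArg (fun T : Module.End F V => T w) t.cas_comm_e.eq
    simp only [Module.End.mul_apply] at this
    rw [← this, hw, map_zero]
  have hq : ∀ w : V, e w = 0 → cas e h f w = aeval h (X * X + C 2 * X : F[X]) w := by
    intro w hw
    rw [cas_ker e h f w hw]
    simp [Module.End.mul_apply]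
  have hpow : ∀ (n : ℕ) (w : V), e w = 0 →
      e ((cas e h f ^ n) w) = 0 ∧ (cas e h f ^ n) w =
        aeval h ((X * X + C 2 * X : F[X]) ^ n) w := by
    intro n
    induction n with
    | zero => intro w hw; simp [hw]
    | succ n ih =>
      intro w hw
      obtain ⟨i1, i2⟩ := ih w hw
      rw [pow_succ', Module.End.mul_apply]
      refine ⟨hcomm _ i1, ?_⟩
      rw [hq _ i1, i2, pow_succ' (X * X + C 2 * X : F[X]), map_mul, Module.End.mul_apply]
  induction p using Polynomial.induction_on' with
  | add p q hp hq => rw [map_add, add_comp, map_add, LinearMap.add_apply, hp, hq,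
      LinearMap.add_apply]
  | monomial n a =>
    rw [aeval_monomial, monomial_comp, map_mul, aeval_C, Module.End.mul_apply,
      Module.End.mul_apply, (hpow n v hv).2]

theorem SlT.cas_pow (t : SlT e h f) {N : ℕ} (he : e ^ N = 0) (hf : f ^ N = 0) :
    aeval (cas e h f) ((∏ j ∈ Finset.range N, (X - C ((j : F) * (j + 2)))) ^ N) = 0 := by
  set m : F[X] := ∏ j ∈ Finset.range N, (X - C ((j : F) * (j + 2))) with hm
  have hcomp : m.comp (X * X + C 2 * X) =
      (∏ j ∈ Finset.range N, (X + C ((j : F) + 2))) *
        ∏ j ∈ Finset.range N, (X - C (j : F)) := by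
    rw [hm, ← Finset.prod_mul_distrib, Polynomial.prod_comp]
    refine Finset.prod_congr rfl fun j _ => ?_
    rw [sub_comp, X_comp, C_comp]
    simp only [map_mul, map_add]
    ring
  have hker : ∀ v : V, e v = 0 → aeval (cas e h f) m v = 0 := by
    intro v hv
    rw [cas_poly_ker t m v hv, hcomp, map_mul, Module.End.mul_apply, t.h_ker hf v hv, map_zero]
  have hcm : Commute (aeval (cas e h f) m) e := by
    have hp : ∀ p : F[X], Commute (aeval (cas e h f) p) e := by
      intro p
      induction p using Polynomial.induction_on' with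
      | add p q hp hq => rw [map_add]; exact hp.add_left hq
      | monomial n a =>
        rw [aeval_monomial]
        exact (Algebra.commute_algebraMap_left a e).mul_left (t.cas_comm_e.pow_left n)
    exact hp m
  have hind : ∀ (k : ℕ) (v : V), (e ^ k) v = 0 → (aeval (cas e h f) m ^ k) v = 0 := by
    intro k
    induction k with
    | zero => intro v hv; simpa using hv
    | succ k ih =>
      intro v hv
      rw [pow_succ, Module.End.mul_apply]
      apply ih
      have h1 : e ((e ^ k) v) = 0 := by
        rw [← Module.End.mul_apply, ← pow_succ']; exact hv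
      have h2 := hker _ h1
      have h3 := congrArg (fun T : Module.End F V => T v) (hcm.pow_right k).eq
      simp only [Module.End.mul_apply] at h3
      rw [← h3]; exact h2
  rw [map_pow]
  ext v
  rw [LinearMap.zero_apply]
  exact hind N v (by rw [he]; rfl)

end

end Pool.Agent.MPabcfcd
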