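import Pool.Agent.Lib.MP_abcfcd_nt.N.Gr

/-!
# The Cayley transform

PROOF. For `Z ∈ fil H 1` the matrix `Z` is nilpotent (`pow_fil`), so `1 - Z/2` is invertible with
inverse
`∑_{j<13} (Z/2)^j`. `cay Z = (1 + Z/2) (∑_{j<13} (Z/2)^j)`. If moreover `Z` is skew-Hermitian then
`g = cay Z` is unitary: `(1 - Z/2) (J g^* J) = 1 + ...`: with `θ(T) = J Tᴴ J` (an
anti-automorphism) we
have `θ(Z) = -Z`, so `θ(1 + Z/2) = 1 - Z/2`, `θ((1 - Z/2)⁻¹) = (1 + Z/2)⁻¹` and `θ(g) g = 1`; this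
is
`gᴴ J g = J`. `cay_neg`: `cay (-Z) cay Z = 1`. `cay_sub`: `cay Z - 1 - Z = Z²/2 + Z³/4 + ...` is in
`fil H (2 k)` if `Z ∈ fil H k`, `k ≥ 1`. `half` is the scalar `f (1/2)`.
-/

set_option autoImplicit false

open Matrix MeasureTheory Topology
open scoped ENNReal NNReal ComplexConjugate RestrictedProduct

namespace Pool.Agent.MPabcfcd

variable {R : Type} [CommRing R]

/-- The Cayley transform of a nilpotent matrix. -/
noncomputable def cay (f : ℚ →+* R) (Z : M7 (E7 R)) : M7 (E7 R) :=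
  (1 + (⟨f (1 / 2), 0⟩ : E7 R) • Z) *
    ∑ j ∈ Finset.range 13, ((⟨f (1 / 2), 0⟩ : E7 R) • Z) ^ j

/-- The scalar one half. -/
private theorem half_add (f : ℚ →+* R) :
    (⟨f (1 / 2), 0⟩ : E7 R) + ⟨f (1 / 2), 0⟩ = 1 := by
  ext
  · show f (1 / 2) + f (1 / 2) = 1
    rw [← map_add, ← map_one f]
    norm_num
  · show (0 : R) + 0 = 0
    rw [add_zero]

private theorem star_half (f : ℚ →+* R) :
    star (⟨f (1 / 2), 0⟩ : E7 R) = ⟨f (1 / 2), 0⟩ := by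
  ext
  · simp
  · simp

private theorem geo_left {W : M7 (E7 R)} (hW : W ^ 13 = 0) :
    (1 - W) * ∑ j ∈ Finset.range 13, W ^ j = 1 := by
  rw [mul_neg_geom_sum, hW, sub_zero]

private theorem geo_right {W : M7 (E7 R)} (hW : W ^ 13 = 0) :
    (∑ j ∈ Finset.range 13, W ^ j) * (1 - W) = 1 := by
  rw [geom_sum_mul_neg, hW, sub_zero]

private theorem neg_pow13 {W : M7 (E7 R)} (hW : W ^ 13 = 0) : (-W) ^ 13 = 0 := by
  rw [Odd.neg_pow (by decide), hW, neg_zero]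

private theorem half_pow (f : ℚ →+* R) {H P P' : M7 (E7 R)} {a : Fin 7 → ℤ} (h : Dg H a P P')
    {Z : M7 (E7 R)} (hZ : Z ∈ fil H 1) : ((⟨f (1 / 2), 0⟩ : E7 R) • Z) ^ 13 = 0 :=
  pow_fil f h (Submodule.smul_mem _ _ hZ)

theorem exists_cay (f : ℚ →+* R) {H P P' : M7 (E7 R)} {a : Fin 7 → ℤ} (h : Dg H a P P')
    {Z : M7 (E7 R)} (hZ : Z ∈ fil H 1) (hs : Sk Z) : ∃ g : U7 R, g.mat = cay f Z := by
  obtain ⟨W, hW⟩ : ∃ W, W = (⟨f (1 / 2), 0⟩ : E7 R) • Z := ⟨_, rfl⟩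
  have h13 : W ^ 13 = 0 := by
    rw [hW]
    exact half_pow f h hZ
  have hsk : Wᴴ * J7 (E7 R) = J7 (E7 R) * (-W) := by
    have hs' : Zᴴ * J7 (E7 R) = -(J7 (E7 R) * Z) := eq_neg_of_add_eq_zero_left hs
    rw [hW, Matrix.conjTranspose_smul, star_half, Matrix.smul_mul, hs', Matrix.mul_neg,
      Matrix.mul_smul, smul_neg]
  have hpow : ∀ j : ℕ, (W ^ j)ᴴ * J7 (E7 R) = J7 (E7 R) * (-W) ^ j := by
    intro j
    induction j with
    | zero => simp
    | succ n ih =>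
      rw [pow_succ W, Matrix.conjTranspose_mul, Matrix.mul_assoc, ih, ← Matrix.mul_assoc, hsk,
        Matrix.mul_assoc, pow_succ' (-W)]
  have hsum : (∑ j ∈ Finset.range 13, W ^ j)ᴴ * J7 (E7 R) =
      J7 (E7 R) * ∑ j ∈ Finset.range 13, (-W) ^ j := by
    rw [Matrix.conjTranspose_sum, Finset.sum_mul, Finset.mul_sum]
    exact Finset.sum_congr rfl fun j _ => hpow j
  have h1 : (1 + W)ᴴ * J7 (E7 R) = J7 (E7 R) * (1 - W) := by
    rw [Matrix.conjTranspose_add, Matrix.conjTranspose_one, add_mul, hsk, one_mul, mul_sub,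
      mul_one, Matrix.mul_neg, sub_eq_add_neg]
  have hL := geo_left h13
  have hR' := geo_right (neg_pow13 h13)
  rw [sub_neg_eq_add] at hR'
  have hcm : (1 - W) * (1 + W) = (1 + W) * (1 - W) := by noncomm_ring
  have hc : cay f Z = (1 + W) * ∑ j ∈ Finset.range 13, W ^ j := by
    rw [hW]
    rfl
  obtain ⟨S, hS⟩ : ∃ S, S = ∑ j ∈ Finset.range 13, W ^ j := ⟨_, rfl⟩
  obtain ⟨S', hS'⟩ : ∃ S', S' = ∑ j ∈ Finset.range 13, (-W) ^ j := ⟨_, rfl⟩
  rw [← hS] at hL hc hsum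
  rw [← hS'] at hR' hsum
  refine ⟨⟨(1 + W) * S, ?_⟩, hc.symm⟩
  calc ((1 + W) * S)ᴴ * J7 (E7 R) * ((1 + W) * S)
      = Sᴴ * ((1 + W)ᴴ * J7 (E7 R)) * ((1 + W) * S) := by
        rw [Matrix.conjTranspose_mul]
        simp only [Matrix.mul_assoc]
    _ = (Sᴴ * J7 (E7 R)) * ((1 - W) * (1 + W)) * S := by
        rw [h1]
        simp only [Matrix.mul_assoc]
    _ = J7 (E7 R) * ((S' * (1 + W)) * ((1 - W) * S)) := by
        rw [hsum, hcm]
        simp only [Matrix.mul_assoc]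
    _ = J7 (E7 R) := by rw [hR', hL, Matrix.mul_one, Matrix.mul_one]

theorem cay_neg (f : ℚ →+* R) {H P P' : M7 (E7 R)} {a : Fin 7 → ℤ} (h : Dg H a P P')
    {Z : M7 (E7 R)} (hZ : Z ∈ fil H 1) : cay f (-Z) * cay f Z = 1 := by
  have h13 := half_pow f h hZ
  have hL := geo_left h13
  have hR' := geo_right (neg_pow13 h13)
  rw [sub_neg_eq_add] at hR'
  unfold cay
  rw [smul_neg, ← sub_eq_add_neg, Matrix.mul_assoc, ← Matrix.mul_assoc (∑ j ∈ Finset.range 13, _),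
    hR', Matrix.one_mul, hL]

theorem cay_sub (f : ℚ →+* R) {H P P' : M7 (E7 R)} {a : Fin 7 → ℤ} (h : Dg H a P P')
    {k : ℤ} (hk : 1 ≤ k) {Z : M7 (E7 R)} (hZ : Z ∈ fil H k) :
    cay f Z - 1 - Z ∈ fil H (2 * k) := by
  obtain ⟨W, hW⟩ : ∃ W, W = (⟨f (1 / 2), 0⟩ : E7 R) • Z := ⟨_, rfl⟩
  have h13 : W ^ 13 = 0 := by
    rw [hW]
    exact half_pow f h (fil_anti H hk hZ)
  have hWk : W ∈ fil H k := by
    rw [hW]
    exact Submodule.smul_mem _ _ hZ
  have h2 : Z = W + W := by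
    rw [hW, ← add_smul, half_add, one_smul]
  have hL := geo_left h13
  have h1 : (1 : M7 (E7 R)) ∈ fil H 0 := by
    refine gr_le_fil H le_rfl ?_
    rw [mem_gr, mul_one, one_mul, sub_self, Int.cast_zero, zero_smul]
  have hpow : ∀ j : ℕ, W ^ j ∈ fil H 0 := by
    intro j
    induction j with
    | zero => rwa [pow_zero]
    | succ n ih =>
      rw [pow_succ]
      exact fil_anti H (by omega) (mul_mem_fil ih hWk)
  have hSm : (∑ j ∈ Finset.range 13, W ^ j) ∈ fil H 0 :=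
    Submodule.sum_mem _ fun j _ => hpow j
  have hc : cay f Z = (1 + W) * ∑ j ∈ Finset.range 13, W ^ j := by
    rw [hW]
    rfl
  obtain ⟨S, hS⟩ : ∃ S, S = ∑ j ∈ Finset.range 13, W ^ j := ⟨_, rfl⟩
  rw [← hS] at hL hc hSm
  have hS1 : S = 1 + W * S := by
    rw [sub_mul, one_mul] at hL
    exact sub_eq_iff_eq_add.1 hL
  have h3 : (1 + W) * S - 1 - (W + W) = W * W * S + W * W * S := by
    have e1 : (1 + W) * S = S + W * S := by rw [add_mul, one_mul]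
    have e2 : W * S = W + W * W * S := by
      conv_lhs => rw [hS1]
      rw [mul_add, mul_one, Matrix.mul_assoc]
    have e3 : S = 1 + (W + W * W * S) := by rw [← e2]; exact hS1
    rw [e1, e2]
    generalize W * W * S = T at e3 ⊢
    rw [e3]
    abel
  rw [hc, h2, h3]
  have h4 : W * W * S ∈ fil H (2 * k) := by
    have h5 := mul_mem_fil (mul_mem_fil hWk hWk) hSm
    rwa [show k + k + 0 = 2 * k by ring] at h5
  exact Submodule.add_mem _ h4 h4

theorem cay_map {S : Type} [CommRing S] (f : ℚ →+* R) (φ : R →+* S) (Z : M7 (E7 R)) :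
    mapM φ (cay f Z) = cay (φ.comp f) (mapM φ Z) := by
  have h0 : ∀ X : M7 (E7 R), mapM φ X = (E7.map φ).mapMatrix X := fun _ => rfl
  have h1 : (E7.map φ).mapMatrix ((⟨f (1 / 2), 0⟩ : E7 R) • Z) =
      (⟨(φ.comp f) (1 / 2), 0⟩ : E7 S) • (E7.map φ).mapMatrix Z := by
    have h2 : E7.map φ (⟨f (1 / 2), 0⟩ : E7 R) = ⟨(φ.comp f) (1 / 2), 0⟩ := by
      ext
      · rfl
      · exact map_zero φ
    refine Matrix.ext fun i j => ?_
    show E7.map φ ((⟨f (1 / 2), 0⟩ : E7 R) * Z i j) = _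
    rw [map_mul, h2]
    rfl
  rw [h0, h0]
  unfold cay
  rw [map_mul, map_add, map_one, map_sum, h1]
  simp only [map_pow, h1]

theorem continuous_cay [TopologicalSpace R] [IsTopologicalRing R] (f : ℚ →+* R) :
    Continuous (cay f) := by
  have h1 : Continuous fun Z : M7 (E7 R) => (⟨f (1 / 2), 0⟩ : E7 R) • Z :=
    continuous_const.smul (f := fun _ : M7 (E7 R) => (⟨f (1 / 2), 0⟩ : E7 R)) continuous_id
  show Continuous fun Z : M7 (E7 R) => (1 + (⟨f (1 / 2), 0⟩ : E7 R) • Z) *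
    ∑ j ∈ Finset.range 13, ((⟨f (1 / 2), 0⟩ : E7 R) • Z) ^ j
  exact (continuous_const.add h1).matrix_mul (continuous_finsetSum _ fun j _ => h1.pow j)

end Pool.Agent.MPabcfcd
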