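import Pool.Agent.Lib.MP_abcfcd_nt.N.Top
import Pool.Agent.Lib.MP_abcfcd_nt.N.Psi

/-!
# The character of `V_X(𝔸)`

PROOF. `ch_mul`: `u v - 1 = (u - 1) + (v - 1) + (u - 1)(v - 1)`; `X` (over `AQ`) is in `gr (-2)`
(`t.h_X`), `(u-1)(v-1) ∈ fil 4`, so `X (u-1)(v-1) ∈ fil 2` has trace zero (`trace_fil`); `psi_add`.
`ch_gam`: for `γ ∈ Gam` the trace is in the image of `E7 ℚ`, its real part is the image of a
rational
number; `psi_rat`. `continuous_ch`: `continuous_psi` and polynomial entries.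
-/

set_option autoImplicit false

open Matrix MeasureTheory Topology
open scoped ENNReal NNReal ComplexConjugate RestrictedProduct

namespace Pool.Agent.MPabcfcd

private theorem Ch_X (t : Sl2) : mapM ratAQ t.X ∈ fil (mapM ratAQ t.h) (-2) := by
  refine gr_le_fil _ le_rfl ?_
  rw [mem_gr]
  have h1 := congrArg (fun M : M7 (E7 ℚ) => (E7.map ratAQ).mapMatrix M) t.h_X
  simp only [map_sub, map_mul, map_neg, map_nsmul] at h1
  have h2 : ((-2 : ℤ) : E7 AQ) • mapM ratAQ t.X = -(2 • mapM ratAQ t.X) := by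
    rw [Int.cast_neg, neg_smul, Int.cast_ofNat, two_smul, two_nsmul]
  rw [h2]
  exact h1

theorem ch_mul (t : Sl2) {u v : U7 AQ} (hu : u ∈ t.V) (hv : v ∈ t.V) :
    t.ch (u * v) = t.ch u * t.ch v := by
  obtain ⟨a, P, P', D0⟩ := exists_diag t
  have D := D0.map ratAQ
  have hu' : u.mat - 1 ∈ fil (mapM ratAQ t.h) 2 := hu
  have hv' : v.mat - 1 ∈ fil (mapM ratAQ t.h) 2 := hv
  have h1 : (u * v).mat - 1 = (u.mat - 1) * (v.mat - 1) + ((u.mat - 1) + (v.mat - 1)) := by
    rw [U7.mat_mul]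
    noncomm_ring
  have h2 : Matrix.trace (mapM ratAQ t.X * ((u.mat - 1) * (v.mat - 1))) = 0 :=
    trace_fil ratAQ D (by norm_num : (1 : ℤ) ≤ -2 + (2 + 2))
      (mul_mem_fil (Ch_X t) (mul_mem_fil hu' hv'))
  have h3 : Matrix.trace (mapM ratAQ t.X * ((u * v).mat - 1)) =
      Matrix.trace (mapM ratAQ t.X * (u.mat - 1)) +
        Matrix.trace (mapM ratAQ t.X * (v.mat - 1)) := by
    rw [h1, mul_add, mul_add, Matrix.trace_add, Matrix.trace_add, h2, zero_add]
  show psi (Matrix.trace (mapM ratAQ t.X * ((u * v).mat - 1))).re =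
    psi (Matrix.trace (mapM ratAQ t.X * (u.mat - 1))).re *
      psi (Matrix.trace (mapM ratAQ t.X * (v.mat - 1))).re
  rw [h3, ← psi_add]
  rfl

theorem ch_gam (t : Sl2) {γ : U7 AQ} (h : γ ∈ Gam) : t.ch γ = 1 := by
  obtain ⟨δ, rfl⟩ := h
  have h1 : mapM ratAQ t.X * ((U7.map ratAQ δ).mat - 1) =
      (E7.map ratAQ).mapMatrix (t.X * (δ.mat - 1)) := by
    rw [map_mul, map_sub, map_one]
    rfl
  show psi (Matrix.trace (mapM ratAQ t.X * ((U7.map ratAQ δ).mat - 1))).re = 1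
  rw [h1]
  have h2 : Matrix.trace ((E7.map ratAQ).mapMatrix (t.X * (δ.mat - 1))) =
      E7.map ratAQ (Matrix.trace (t.X * (δ.mat - 1))) := by
    rw [Matrix.trace, Matrix.trace, map_sum]
    rfl
  rw [h2, E7.map_re]
  exact psi_rat _

theorem continuous_ch (t : Sl2) : Continuous t.ch := by
  refine continuous_psi.comp (E7.continuous_re.comp ?_)
  have h1 : Continuous fun v : U7 AQ => mapM ratAQ t.X * (v.mat - 1) :=
    continuous_const.matrix_mul (U7.continuous_mat.sub continuous_const)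
  exact h1.matrix_trace

end Pool.Agent.MPabcfcd
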