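import Pool.Agent.Lib.MP_abcfcd_nt.N.Sl

/-!
# Nilpotency

`h e^k - e^k h = 2k e^k`, so if `e^k ≠ 0` for all `k`, then the linear map `T ↦ h T - T h` of `End V`
has infinitely many eigenvalues `2k`.
-/

set_option autoImplicit false

open Polynomial

namespace Pool.Agent.MPabcfcd

theorem SlT.nil {F V : Type} [Field F] [CharZero F] [AddCommGroup V] [Module F V]
    [FiniteDimensional F V] {e h f : Module.End F V} (t : SlT e h f) : IsNilpotent e := by
  by_contra hn
  have hk : ∀ k : ℕ, e ^ k ≠ 0 := fun k hk => hn ⟨k, hk⟩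
  have hD : ∀ k : ℕ, Module.End.HasEigenvector
      (LinearMap.mulLeft F h - LinearMap.mulRight F h : Module.End F (Module.End F V))
      (2 * (k : F)) (e ^ k) := by
    intro k
    refine ⟨Module.End.mem_eigenspace_iff.2 ?_, hk k⟩
    have h1 : (2 * (k : F)) • e ^ k = 2 * (k : Module.End F V) * e ^ k := by
      rw [mul_smul, two_smul, Nat.cast_smul_eq_nsmul, nsmul_eq_mul, mul_assoc, two_mul]
    rw [LinearMap.sub_apply, LinearMap.mulLeft_apply, LinearMap.mulRight_apply, t.h_e_pow,
      mul_add, add_sub_cancel_left, h1]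
    have h2 := (Nat.cast_commute (2 * k) (e ^ k)).eq
    rw [Nat.cast_mul, Nat.cast_ofNat] at h2
    exact h2.symm
  have hinj : Function.Injective fun k : ℕ => 2 * (k : F) := by
    intro a b hab
    have h1 : (2 : F) * (a : F) = 2 * (b : F) := hab
    exact Nat.cast_injective (mul_left_cancel₀ two_ne_zero h1)
  have hli := Module.End.eigenvectors_linearIndependent' _ (fun k : ℕ => 2 * (k : F)) hinj
    (fun k => e ^ k) hD
  exact Set.infinite_univ (Set.finite_univ_iff.2 hli.finite_of_isNoetherian)

end Pool.Agent.MPabcfcd
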