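import Pool.Agent.Lib.MP_abcfcd_nt.N.Gen

/-!
# `h` is semisimple with integer eigenvalues

`cas_pow` and coprimality of the polynomials `(X - j (j+2))^N`, `j < N` (`j (j+2)` are distinct):
every `v` is a sum of elements of the `V_j`. By `h_gen` each `V_j` is killed by
`∏_{k<N} (h - (j - 2k))`, which divides `∏_{a = -2N}^{N} (h - a)` (the roots `j - 2k` are
distinct and in the interval).
-/

set_option autoImplicit false

open Polynomial

namespace Pool.Agent.MPabcfcd

section
variable {F V : Type} [Field F] [CharZero F] [AddCommGroup V] [Module F V]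
  {e h f : Module.End F V}

omit [CharZero F] in
private theorem Semi_dvd {N j : ℕ} (hj : j < N) :
    (∏ k ∈ Finset.range N, (X - C ((j : F) - 2 * k))) ∣
      ∏ a ∈ Finset.Icc (-2 * (N : ℤ)) N, (X - C (a : F)) := by
  have h1 : ∏ k ∈ Finset.range N, (X - C ((j : F) - 2 * k)) =
      ∏ a ∈ (Finset.range N).image (fun k : ℕ => (j : ℤ) - 2 * k), (X - C (a : F)) := by
    rw [Finset.prod_image]
    · refine Finset.prod_congr rfl fun k _ => ?_
      push_cast
      rfl
    · intro a _ b _ hab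
      simp only at hab
      omega
  rw [h1]
  refine Finset.prod_dvd_prod_of_subset _ _ _ fun a ha => ?_
  obtain ⟨k, hk, rfl⟩ := Finset.mem_image.1 ha
  rw [Finset.mem_range] at hk
  rw [Finset.mem_Icc]
  omega

private theorem Semi_coprime (N : ℕ) :
    Pairwise (Function.onFun IsCoprime
      (fun i : (Finset.range N : Finset ℕ) => (X - C (((i : ℕ) : F) * ((i : ℕ) + 2))) ^ N)) := by
  intro i j hij
  refine IsCoprime.pow ?_
  refine isCoprime_X_sub_C_of_isUnit_sub ?_
  rw [isUnit_iff_ne_zero]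
  intro h0
  refine hij (Subtype.ext ?_)
  have h1 : (((i : ℕ) * ((i : ℕ) + 2) : ℕ) : F) = (((j : ℕ) * ((j : ℕ) + 2) : ℕ) : F) := by
    push_cast
    linear_combination h0
  have h2 : (i : ℕ) * ((i : ℕ) + 2) = (j : ℕ) * ((j : ℕ) + 2) := Nat.cast_injective h1
  have h3 : ((i : ℕ) + 1) * ((i : ℕ) + 1) = ((j : ℕ) + 1) * ((j : ℕ) + 1) := by
    nlinarith [h2]
  have h4 := Nat.mul_self_inj.1 h3
  omega

private theorem Semi_key (t : SlT e h f) {N : ℕ} (he : e ^ N = 0) (hf : f ^ N = 0) {j : ℕ}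
    (hj : j < N) (w : V)
    (hw : aeval (cas e h f) ((X - C ((j : F) * (j + 2))) ^ N) w = 0) :
    aeval h (∏ a ∈ Finset.Icc (-2 * (N : ℤ)) N, (X - C (a : F))) w = 0 := by
  obtain ⟨q, hq⟩ := Semi_dvd (F := F) hj
  have h1 : aeval h (∏ a ∈ Finset.Icc (-2 * (N : ℤ)) N, (X - C (a : F))) =
      aeval h q * aeval h (∏ k ∈ Finset.range N, (X - C ((j : F) - 2 * k))) := by
    rw [hq, mul_comm, map_mul]
  have h2 := t.h_gen he hf hj w hw
  rw [h1, Module.End.mul_apply, h2, map_zero]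

omit [CharZero F] in
private theorem Semi_sum (A : Polynomial F →ₐ[F] Module.End F V) (H : Module.End F V)
    (P μ : ℕ → Polynomial F) (N : ℕ)
    (hμ : ∑ j ∈ Finset.range N, μ j * ∏ i ∈ Finset.range N \ {j}, P i = 1)
    (hP : A (∏ i ∈ Finset.range N, P i) = 0)
    (hH : ∀ j < N, ∀ w : V, A (P j) w = 0 → H w = 0) : H = 0 := by
  refine LinearMap.ext fun v => ?_
  have h1 : ∀ j ∈ Finset.range N, H (A (μ j * ∏ i ∈ Finset.range N \ {j}, P i) v) = 0 := by
    intro j hj
    refine hH j (Finset.mem_range.1 hj) _ ?_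
    have h2 : P j * (μ j * ∏ i ∈ Finset.range N \ {j}, P i) =
        μ j * ∏ i ∈ Finset.range N, P i := by
      rw [← Finset.prod_sdiff (Finset.singleton_subset_iff.2 hj), Finset.prod_singleton]
      ring
    have h3 : A (P j) (A (μ j * ∏ i ∈ Finset.range N \ {j}, P i) v) =
        A (P j * (μ j * ∏ i ∈ Finset.range N \ {j}, P i)) v := by
      rw [map_mul A (P j) (μ j * ∏ i ∈ Finset.range N \ {j}, P i)]
      rfl
    rw [h3, h2, map_mul, hP, mul_zero, LinearMap.zero_apply]
  have h4 : v = ∑ j ∈ Finset.range N, A (μ j * ∏ i ∈ Finset.range N \ {j}, P i) v := by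
    have h5 : A (∑ j ∈ Finset.range N, μ j * ∏ i ∈ Finset.range N \ {j}, P i) = 1 := by
      rw [hμ, map_one]
    rw [map_sum] at h5
    have h6 := LinearMap.congr_fun h5 v
    rw [LinearMap.sum_apply, Module.End.one_apply] at h6
    exact h6.symm
  rw [h4, map_sum, Finset.sum_eq_zero h1, LinearMap.zero_apply]

theorem SlT.semi (t : SlT e h f) {N : ℕ} (he : e ^ N = 0) (hf : f ^ N = 0) :
    aeval h (∏ a ∈ Finset.Icc (-2 * (N : ℤ)) N, (X - C (a : F))) = 0 := by
  rcases Nat.eq_zero_or_pos N with h0 | hN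
  · have h1 : (1 : Module.End F V) = 0 := by rw [← he, h0, pow_zero]
    rw [← mul_one (aeval h (∏ a ∈ Finset.Icc (-2 * (N : ℤ)) N, (X - C (a : F)))), h1, mul_zero]
  have hne : (Finset.range N).Nonempty := ⟨0, Finset.mem_range.2 hN⟩
  obtain ⟨μ, hμ⟩ := (exists_sum_eq_one_iff_pairwise_coprime
    (s := fun i : ℕ => ((X - C ((i : F) * (i + 2))) ^ N : Polynomial F)) hne).2 (Semi_coprime N)
  have h2 := t.cas_pow he hf
  rw [← Finset.prod_pow] at h2
  exact Semi_sum (aeval (cas e h f)) _ (fun i : ℕ => (X - C ((i : F) * (i + 2))) ^ N) μ N hμ h2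
    fun j hj w hw => Semi_key t he hf hj w hw

end

end Pool.Agent.MPabcfcd
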