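import Pool.Agent.Lib.MP_abcfcd_nt.N.Gr
import Pool.Agent.Lib.MP_abcfcd_nt.X.Fld
import Pool.Agent.Lib.MP_abcfcd_nt.N.Semi
import Pool.Agent.Lib.MP_abcfcd_nt.N.Nil
import Pool.Agent.Lib.MP_abcfcd_nt.N.Bound
import Pool.Agent.Lib.MP_abcfcd_nt.N.Bas

/-!
# Weight bases of `sl₂`-triples in the unitary Lie algebra

`V = Fin 7 → E7 ℚ`, `Matrix.toLin'` (or `Matrix.toLinAlgEquiv'`) of `t.e`, `t.h`, `t.X` is a triple
`SlT`; `SlT.nil`, so `e^7 = 0` and `f^7 = 0` (nilpotent in dimension seven); `SlT.semi` with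
`N = 7`, `exists_diagonal`, and `SlT.bound` for the columns of `P` (not zero because `P` is invertible). The
field structure of `E7 ℚ` comes from the instance `Loc.factQ` of `X/Fld.lean`.
-/

set_option autoImplicit false

open Polynomial

namespace Pool.Agent.MPabcfcd

/-- The algebra isomorphism of matrices and endomorphisms. -/
private noncomputable def Diag_phi : M7 (E7 ℚ) ≃ₐ[E7 ℚ] Module.End (E7 ℚ) (Fin 7 → E7 ℚ) :=
  Matrix.toLinAlgEquiv'

private theorem Diag_apply (M : M7 (E7 ℚ)) (v : Fin 7 → E7 ℚ) :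
    Diag_phi M v = M.mulVec v := rfl

private theorem Diag_slt (t : Sl2) : SlT (Diag_phi t.e) (Diag_phi t.h) (Diag_phi t.X) := by
  refine ⟨?_, ?_, ?_⟩
  · rw [← map_mul, ← map_mul, ← map_sub, t.h_e, two_mul, two_nsmul, map_add]
  · rw [← map_mul, ← map_mul, ← map_sub, t.h_X, two_mul, two_nsmul, map_neg, map_add]
  · rw [← map_mul, ← map_mul, ← map_sub, t.e_X]

private theorem Diag_pow {f : Module.End (E7 ℚ) (Fin 7 → E7 ℚ)} (hf : IsNilpotent f) :
    f ^ 7 = 0 := by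
  have h1 := f.aeval_self_charpoly
  rw [hf.charpoly_eq_X_pow_finrank, map_pow, aeval_X, Module.finrank_fin_fun] at h1
  exact h1

theorem exists_WB (t : Sl2) :
    ∃ w : Loc.WB t.h, ∀ n : ℕ, t.X ^ (n + 1) = 0 → ∀ i, |w.a i| ≤ n := by
  have ht := Diag_slt t
  have he := Diag_pow ht.nil
  have hf := Diag_pow ht.symm.nil
  have h1 := ht.semi he hf
  have h2 : aeval t.h (∏ a ∈ Finset.Icc (-2 * ((7 : ℕ) : ℤ)) (7 : ℕ),
      (X - C (a : E7 ℚ))) = 0 := by
    apply Diag_phi.injective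
    rw [map_zero, ← h1]
    exact (Polynomial.aeval_algHom_apply Diag_phi.toAlgHom t.h _).symm
  obtain ⟨P, Q, a, hPQ, hQP, hA⟩ := exists_diagonal t.h _ h2
  refine ⟨⟨P, Q, a, hPQ, hQP, hA⟩, fun n hn i => ?_⟩
  have hXn : Diag_phi t.X ^ (n + 1) = 0 := by
    rw [← map_pow, hn, map_zero]
  refine ht.bound ht.nil hXn (a i) (fun k => P k i) ?_ ?_
  · intro h0
    have h3 := congrFun (congrFun hQP i) i
    rw [Matrix.mul_apply, Matrix.one_apply_eq] at h3
    have h4 : ∀ k, P k i = 0 := fun k => congrFun h0 k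
    simp only [h4, mul_zero, Finset.sum_const_zero] at h3
    exact zero_ne_one h3
  · funext k
    have h3 := congrFun (congrFun hA k) i
    rw [Matrix.mul_diagonal, Matrix.mul_apply] at h3
    rw [Diag_apply, Pi.smul_apply, smul_eq_mul, Matrix.mulVec, dotProduct, h3, mul_comm]

/-- `e` and `X` are nilpotent: the seventh powers are zero. -/
theorem Sl2.X_pow (t : Sl2) : t.X ^ 7 = 0 := by
  apply Diag_phi.injective
  rw [map_pow, map_zero]
  exact Diag_pow (Diag_slt t).symm.nil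

/-- The grading element is diagonalisable over `ℚ(√-7)` with integer eigenvalues. -/
theorem exists_diag (t : Sl2) : ∃ (a : Fin 7 → ℤ) (P P' : M7 (E7 ℚ)), Dg t.h a P P' := by
  obtain ⟨w, hw⟩ := exists_WB t
  exact ⟨w.a, w.P, w.Q, ⟨w.HP, w.QP, w.PQ, hw 6 t.X_pow⟩⟩

end Pool.Agent.MPabcfcd
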