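import Pool.Agent.Lib.MP_abcfcd_nt.N.Deg
import Pool.Agent.Lib.MP_abcfcd_nt.N.Diag

/-!
# `V_X(𝔸)` is compact modulo `V_X(ℚ)`

PROOF. `a`, `P`, `P'` from `exists_diag`. Claim(k), for `2 ≤ k ≤ 13`: there is a compact set `K` of
`t.V` such that every `v ∈ t.V` with `v - 1 ∈ fil k` is `κ γ` with `κ ∈ K`, `γ ∈ t.VQ`. `k = 13`:
`v = 1` (`fil_eq_bot`). From `k + 1` to `k`: let `C` be from `exists_cpt`, `T = v - 1 = Q + c`,
`Z = pr k T = q + d` with `q = pr k Q` (rational, `pr_map`) and `d = pr k c` in the compact set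
`pr k (C)`. All are skew-Hermitian of degree `k` (`pr_mem`); let `e(Z)` be the Cayley transform
(`exists_cay`), `e(Z) = 1 + Z + ...` (`cay_sub`, and `2 k ≥ k + 1`). Then `v' = e(-d) v e(-q)`
satisfies
`v' - 1 ∈ fil (k + 1)` (multiply out modulo `fil (k+1)`: `-d + (v - 1) - q`, `sub_pr`). So
`v' = κ γ` and `v = e(d) κ γ e(q)` (`cay_neg`), with `γ e(q)` rational. The set of the `e(d) κ` is
compact.
The group elements: `e(q)` is the image of an element of `U7 ℚ` (`exists_cay` over `ℚ`, `cay_map`),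
so it
is in `Gam`. Compactness of `{e(d)}` in `t.V`: the image of the compact set under the continuous map
`cay`, with `U7.isEmbedding_mat`. Finally `CompactSpace (t.V ⧸ t.VQ)`: it is the image of `K` for
`k = 2`.
-/

set_option autoImplicit false

open Matrix MeasureTheory Topology
open scoped ENNReal NNReal ComplexConjugate RestrictedProduct

namespace Pool.Agent.MPabcfcd

private theorem Cmp_inv {Z : M7 (E7 AQ)} {H P P' : M7 (E7 AQ)} {a : Fin 7 → ℤ}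
    (h : Dg H a P P') (hZ : Z ∈ fil H 1) (g : U7 AQ) (hg : g.mat = cay ratAQ Z) :
    (g⁻¹).mat = cay ratAQ (-Z) := by
  have h1 : cay ratAQ (-Z) * g.mat = 1 := by
    rw [hg]
    exact cay_neg ratAQ h hZ
  have h2 : g.mat * (g⁻¹).mat = 1 := by
    rw [← U7.mat_mul, mul_inv_cancel, U7.mat_one]
  calc (g⁻¹).mat = 1 * (g⁻¹).mat := (one_mul _).symm
    _ = cay ratAQ (-Z) * g.mat * (g⁻¹).mat := by rw [h1]
    _ = cay ratAQ (-Z) := by rw [mul_assoc, h2, mul_one]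

private theorem Cmp_mem {Z : M7 (E7 AQ)} {H P P' : M7 (E7 AQ)} {a : Fin 7 → ℤ}
    (h : Dg H a P P') {k : ℤ} (hk : 2 ≤ k) (hZ : Z ∈ fil H k) :
    cay ratAQ Z - 1 ∈ fil H 2 := by
  have h1 := cay_sub ratAQ h (by omega : (1 : ℤ) ≤ k) hZ
  have h2 : cay ratAQ Z - 1 = (cay ratAQ Z - 1 - Z) + Z := by abel
  rw [h2]
  exact Submodule.add_mem _ (fil_anti H (by omega) h1) (fil_anti H hk hZ)

private theorem Cmp_prod {H a T b : M7 (E7 AQ)} {k : ℤ} (hk : 2 ≤ k) (ha : a ∈ fil H k)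
    (hT : T ∈ fil H k) (hb : b ∈ fil H k) (hs : a + T + b ∈ fil H (k + 1)) :
    (1 + a) * (1 + T) * (1 + b) - 1 ∈ fil H (k + 1) := by
  have h1 : (1 + a) * (1 + T) * (1 + b) - 1 =
      (a + T + b) + (a * T + a * b + T * b + a * T * b) := by
    noncomm_ring
  rw [h1]
  have h2 : k + 1 ≤ k + k := by omega
  have h3 : k + 1 ≤ k + k + k := by omega
  refine Submodule.add_mem _ hs (Submodule.add_mem _ (Submodule.add_mem _ (Submodule.add_mem _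
    (fil_anti H h2 (mul_mem_fil ha hT)) (fil_anti H h2 (mul_mem_fil ha hb)))
    (fil_anti H h2 (mul_mem_fil hT hb))) (fil_anti H h3 (mul_mem_fil (mul_mem_fil ha hT) hb)))

private theorem Cmp_step (t : Sl2) (w : Loc.WB t.h) (hw : ∀ i, |w.a i| ≤ 6) {k : ℤ} (hk : 2 ≤ k)
    (ih : ∃ K : Set t.V, IsCompact K ∧ ∀ v : t.V,
      (v : U7 AQ).mat - 1 ∈ fil (mapM ratAQ t.h) (k + 1) → ∃ κ ∈ K, ∃ γ ∈ t.VQ, v = κ * γ) :
    ∃ K : Set t.V, IsCompact K ∧ ∀ v : t.V,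
      (v : U7 AQ).mat - 1 ∈ fil (mapM ratAQ t.h) k → ∃ κ ∈ K, ∃ γ ∈ t.VQ, v = κ * γ := by
  obtain ⟨K, hK, hKv⟩ := ih
  obtain ⟨C, hC, hCT⟩ := exists_cpt
  have D0 : Dg t.h w.a w.P w.Q := ⟨w.HP, w.QP, w.PQ, hw⟩
  have D := D0.map ratAQ
  have hH := t.sk_h.map ratAQ
  have hk1 : (1 : ℤ) ≤ k := by omega
  have hg0 : ∀ c : M7 (E7 AQ), ∃ v : t.V,
      (v : U7 AQ).mat = cay ratAQ (pr ratAQ w.a (mapM ratAQ w.P) (mapM ratAQ w.Q) k c) := by
    intro c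
    obtain ⟨h1, h2⟩ := pr_mem ratAQ D hH k c
    obtain ⟨g, hg⟩ := exists_cay ratAQ D (gr_le_fil _ hk1 h1) h2
    refine ⟨⟨g, ?_⟩, hg⟩
    show g.mat - 1 ∈ fil _ 2
    rw [hg]
    exact Cmp_mem D hk (gr_le_fil _ le_rfl h1)
  choose g hg using hg0
  have hemb : IsEmbedding (fun v : t.V => (v : U7 AQ).mat) :=
    U7.isEmbedding_mat.comp IsEmbedding.subtypeVal
  have hgc : Continuous g := by
    rw [hemb.continuous_iff]
    have h1 : (fun v : t.V => (v : U7 AQ).mat) ∘ g = fun c =>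
        cay ratAQ (pr ratAQ w.a (mapM ratAQ w.P) (mapM ratAQ w.Q) k c) := by
      funext c
      exact hg c
    rw [h1]
    exact (continuous_cay ratAQ).comp (continuous_pr ratAQ w.a _ _ k)
  refine ⟨(fun p : t.V × t.V => p.1 * p.2) '' ((g '' C) ×ˢ K),
    ((hC.image hgc).prod hK).image continuous_mul, ?_⟩
  intro v hv
  obtain ⟨Q, c, hc, hT⟩ := hCT ((v : U7 AQ).mat - 1)
  -- the rational part
  have hH0 := t.sk_h
  obtain ⟨hq1, hq2⟩ := pr_mem (RingHom.id ℚ) D0 hH0 k Q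
  obtain ⟨u, hu⟩ := exists_cay (RingHom.id ℚ) D0 (gr_le_fil _ hk1 hq1) hq2
  have hqm : mapM ratAQ (pr (RingHom.id ℚ) w.a w.P w.Q k Q) =
      pr ratAQ w.a (mapM ratAQ w.P) (mapM ratAQ w.Q) k (mapM ratAQ Q) := by
    rw [pr_map, RingHom.comp_id]
  have hum : (U7.map ratAQ u).mat =
      cay ratAQ (pr ratAQ w.a (mapM ratAQ w.P) (mapM ratAQ w.Q) k (mapM ratAQ Q)) := by
    have h1 : (U7.map ratAQ u).mat = mapM ratAQ u.mat := rfl
    rw [h1, hu, cay_map, RingHom.comp_id, hqm]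
  obtain ⟨hqa, -⟩ := pr_mem ratAQ D hH k (mapM ratAQ Q)
  obtain ⟨hda, -⟩ := pr_mem ratAQ D hH k c
  have huV : U7.map ratAQ u ∈ t.V := by
    show (U7.map ratAQ u).mat - 1 ∈ fil _ 2
    rw [hum]
    exact Cmp_mem D hk (gr_le_fil _ le_rfl hqa)
  have huQ : (⟨U7.map ratAQ u, huV⟩ : t.V) ∈ t.VQ := by
    show U7.map ratAQ u ∈ Gam
    exact ⟨u, rfl⟩
  have hsum : pr ratAQ w.a (mapM ratAQ w.P) (mapM ratAQ w.Q) k ((v : U7 AQ).mat - 1) =
      pr ratAQ w.a (mapM ratAQ w.P) (mapM ratAQ w.Q) k (mapM ratAQ Q) +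
      pr ratAQ w.a (mapM ratAQ w.P) (mapM ratAQ w.Q) k c := by
    rw [hT, pr_add]
  have hsub := sub_pr ratAQ D hH hk1 (v : U7 AQ) hv
  rw [hsum] at hsub
  obtain ⟨q, hq⟩ : ∃ q, q = pr ratAQ w.a (mapM ratAQ w.P) (mapM ratAQ w.Q) k (mapM ratAQ Q) :=
    ⟨_, rfl⟩
  obtain ⟨d, hd⟩ : ∃ d, d = pr ratAQ w.a (mapM ratAQ w.P) (mapM ratAQ w.Q) k c := ⟨_, rfl⟩
  rw [← hq] at hum hqa hsub
  rw [← hd] at hda hsub
  have hgc' : (g c : U7 AQ).mat = cay ratAQ d := by rw [hd]; exact hg c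
  have hqk := gr_le_fil (mapM ratAQ t.h) (le_refl k) hqa
  have hdk := gr_le_fil (mapM ratAQ t.h) (le_refl k) hda
  have hi1 := Cmp_inv D (fil_anti _ hk1 hdk) _ hgc'
  have hi2 := Cmp_inv D (fil_anti _ hk1 hqk) _ hum
  have hr1 := cay_sub ratAQ D hk1 (Submodule.neg_mem _ hdk)
  have hr2 := cay_sub ratAQ D hk1 (Submodule.neg_mem _ hqk)
  have h2k : k + 1 ≤ 2 * k := by omega
  have hr1' := fil_anti (mapM ratAQ t.h) h2k hr1
  have hr2' := fil_anti (mapM ratAQ t.h) h2k hr2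
  obtain ⟨κ, hκ, γ, hγ, hvκ⟩ := hKv ((g c)⁻¹ * v * (⟨U7.map ratAQ u, huV⟩ : t.V)⁻¹) (by
    have h1 : (((g c)⁻¹ * v * (⟨U7.map ratAQ u, huV⟩ : t.V)⁻¹ : t.V) : U7 AQ).mat =
        (((g c : U7 AQ))⁻¹).mat * (v : U7 AQ).mat * ((U7.map ratAQ u)⁻¹).mat := rfl
    rw [h1, hi1, hi2]
    have h2 : cay ratAQ (-d) = 1 + (-d + (cay ratAQ (-d) - 1 - -d)) := by abel
    have h3 : cay ratAQ (-q) = 1 + (-q + (cay ratAQ (-q) - 1 - -q)) := by abel
    have h4 : (v : U7 AQ).mat = 1 + ((v : U7 AQ).mat - 1) := by abel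
    rw [h2, h3, h4]
    have hkk : k ≤ k + 1 := by omega
    refine Cmp_prod hk
      (Submodule.add_mem _ (Submodule.neg_mem _ hdk) (fil_anti _ hkk hr1'))
      hv (Submodule.add_mem _ (Submodule.neg_mem _ hqk) (fil_anti _ hkk hr2')) ?_
    have h5 : -d + (cay ratAQ (-d) - 1 - -d) + ((v : U7 AQ).mat - 1) +
        (-q + (cay ratAQ (-q) - 1 - -q)) =
        ((v : U7 AQ).mat - 1 - (q + d)) + (cay ratAQ (-d) - 1 - -d) +
        (cay ratAQ (-q) - 1 - -q) := by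
      abel
    rw [h5]
    exact Submodule.add_mem _ (Submodule.add_mem _ hsub hr1') hr2')
  refine ⟨g c * κ, ⟨(g c, κ), ⟨⟨c, hc, rfl⟩, hκ⟩, rfl⟩,
    γ * (⟨U7.map ratAQ u, huV⟩ : t.V), mul_mem hγ huQ, ?_⟩
  have h6 : v = g c * ((g c)⁻¹ * v * (⟨U7.map ratAQ u, huV⟩ : t.V)⁻¹) *
      (⟨U7.map ratAQ u, huV⟩ : t.V) := by group
  rw [h6, hvκ]
  group

theorem cmp_lift (t : Sl2) : ∃ K : Set t.V, IsCompact K ∧ ∀ v : t.V, ∃ κ ∈ K, ∃ γ ∈ t.VQ,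
    v = κ * γ := by
  obtain ⟨w, hw'⟩ := exists_WB t
  have hw : ∀ i, |w.a i| ≤ 6 := hw' 6 t.X_pow
  have D0 : Dg t.h w.a w.P w.Q := ⟨w.HP, w.QP, w.PQ, hw⟩
  have D := D0.map ratAQ
  have key : ∀ n : ℕ, n ≤ 11 → ∃ K : Set t.V, IsCompact K ∧ ∀ v : t.V,
      (v : U7 AQ).mat - 1 ∈ fil (mapM ratAQ t.h) (13 - n) → ∃ κ ∈ K, ∃ γ ∈ t.VQ,
      v = κ * γ := by
    intro n
    induction n with
    | zero =>
      intro _
      refine ⟨{1}, isCompact_singleton, fun v hv => ⟨1, rfl, 1, one_mem _, ?_⟩⟩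
      have h1 : (v : U7 AQ).mat - 1 = 0 := fil_eq_bot ratAQ D (by simpa using hv)
      have h2 : (v : U7 AQ) = 1 := U7.ext (by rw [U7.mat_one]; exact sub_eq_zero.1 h1)
      rw [mul_one]
      exact Subtype.ext h2
    | succ n ih =>
      intro hn
      have h1 := Cmp_step t w hw (k := 13 - ((n + 1 : ℕ) : ℤ)) (by push_cast; omega) (by
        have h2 : (13 - ((n + 1 : ℕ) : ℤ)) + 1 = 13 - (n : ℤ) := by push_cast; ring
        rw [h2]
        exact ih (by omega))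
      exact h1
  obtain ⟨K, hK, hKv⟩ := key 11 le_rfl
  refine ⟨K, hK, fun v => hKv v ?_⟩
  have h1 : (v : U7 AQ).mat - 1 ∈ fil (mapM ratAQ t.h) 2 := v.2
  have h2 : (13 - ((11 : ℕ) : ℤ)) = 2 := by norm_num
  rw [h2]
  exact h1

instance (t : Sl2) : CompactSpace (t.V ⧸ t.VQ) := by
  obtain ⟨K, hK, hKv⟩ := cmp_lift t
  refine ⟨?_⟩
  have h1 : (Set.univ : Set (t.V ⧸ t.VQ)) = (QuotientGroup.mk : t.V → t.V ⧸ t.VQ) '' K := by
    refine (Set.eq_univ_of_forall fun x => ?_).symm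
    obtain ⟨v, rfl⟩ := QuotientGroup.mk_surjective x
    obtain ⟨κ, hκ, γ, hγ, rfl⟩ := hKv v
    refine ⟨κ, hκ, ?_⟩
    rw [QuotientGroup.eq]
    rwa [inv_mul_cancel_left]
  rw [h1]
  exact hK.image QuotientGroup.continuous_mk

end Pool.Agent.MPabcfcd
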