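import Pool.Agent.Lib.MP_abcfcd_nt.N.Cay
import Pool.Agent.Lib.MP_abcfcd_nt.N.Psi
import Pool.Agent.Lib.MP_abcfcd_nt.Q.Top

/-!
# The leading term of a unipotent element

PROOF. Let `T ∈ fil H k`, `k ≥ 1`. The degree `k` part of `T` is `P T_k P'`, where `T_k` has the
entries
of `P' T P` at the places with `a i - a j = k`. `pr` is the linear map
`T ↦ ½ (P T_k P' - J (P T_k P')ᴴ J)`; it is defined over `ℚ` if `H, P, P', a` are, its values are in
`gr H k` (`adj_mem_gr`) and skew-Hermitian (`Sk`), and if `v - 1 ∈ fil H k` for a unitary matrix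
`v`, then
`Z = pr (v - 1)` satisfies `v - 1 - Z ∈ fil H (k + 1)`: let `Z₀` be the degree `k` part of `v - 1`.
From
`v⁻¹ = J vᴴ J` we get `θ(v) v = 1`, `θ(T) = J Tᴴ J`, so with `T = v - 1`: `θ(T) + T + θ(T) T = 0`;
the
degree `k` part is `θ(Z₀) + Z₀ = 0`. So `Z = Z₀`. `pr_decomp`: every adele is a rational number
plus an
element of a fixed compact set `C` of `AQ`, so every matrix over `E7 AQ` is `mapM ratAQ Q + C'`
with `C'`
in a fixed compact set; apply `pr`.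
-/

set_option autoImplicit false

open Matrix MeasureTheory Topology
open scoped ENNReal NNReal ComplexConjugate RestrictedProduct

namespace Pool.Agent.MPabcfcd

variable {R : Type} [CommRing R]

/-- The skew-Hermitian part of the part of degree `k`. -/
noncomputable def pr (f : ℚ →+* R) (a : Fin 7 → ℤ) (P P' : M7 (E7 R)) (k : ℤ) (T : M7 (E7 R)) :
    M7 (E7 R) :=
  let Z : M7 (E7 R) := P * (Matrix.of fun i j => if a i - a j = k then (P' * T * P) i j else 0) * P'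
  (⟨f (1 / 2), 0⟩ : E7 R) • (Z - J7 (E7 R) * Zᴴ * J7 (E7 R))

/-- the part of degree `k` -/
private noncomputable def pt (a : Fin 7 → ℤ) (P P' : M7 (E7 R)) (k : ℤ) (T : M7 (E7 R)) :
    M7 (E7 R) :=
  P * (Matrix.of fun i j => if a i - a j = k then (P' * T * P) i j else 0) * P'

private theorem pr_eq (f : ℚ →+* R) (a : Fin 7 → ℤ) (P P' : M7 (E7 R)) (k : ℤ)
    (T : M7 (E7 R)) : pr f a P P' k T = (⟨f (1 / 2), 0⟩ : E7 R) •
      (pt a P P' k T - J7 (E7 R) * (pt a P P' k T)ᴴ * J7 (E7 R)) := rfl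

private theorem conj_pt {H P P' : M7 (E7 R)} {a : Fin 7 → ℤ} (h : Dg H a P P') (k : ℤ)
    (T : M7 (E7 R)) (i j : Fin 7) :
    (P' * pt a P P' k T * P) i j = if a i - a j = k then (P' * T * P) i j else 0 := by
  have h1 : P' * pt a P P' k T * P =
      Matrix.of fun i j => if a i - a j = k then (P' * T * P) i j else 0 := by
    unfold pt
    rw [Matrix.mul_assoc P _ P', ← Matrix.mul_assoc P' P _, h.inv, Matrix.one_mul,
      Matrix.mul_assoc _ P' P, h.inv, Matrix.mul_one]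
  rw [h1]
  rfl

private theorem pt_mem (f : ℚ →+* R) {H P P' : M7 (E7 R)} {a : Fin 7 → ℤ} (h : Dg H a P P')
    (k : ℤ) (T : M7 (E7 R)) : pt a P P' k T ∈ gr H k := by
  rw [mem_gr_conj f h]
  intro i j hij
  rw [conj_pt h, if_neg hij]

private theorem star_half (f : ℚ →+* R) :
    star (⟨f (1 / 2), 0⟩ : E7 R) = (⟨f (1 / 2), 0⟩ : E7 R) := by
  ext
  · simp
  · simp

private theorem half_add_half (f : ℚ →+* R) :
    (⟨f (1 / 2), 0⟩ : E7 R) + (⟨f (1 / 2), 0⟩ : E7 R) = 1 := by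
  ext
  · show f (1 / 2) + f (1 / 2) = 1
    rw [← map_add, add_halves, map_one]
  · show (0 : R) + 0 = 0
    rw [add_zero]

theorem pr_mem (f : ℚ →+* R) {H P P' : M7 (E7 R)} {a : Fin 7 → ℤ} (h : Dg H a P P')
    (hH : Sk H) (k : ℤ) (T : M7 (E7 R)) : pr f a P P' k T ∈ gr H k ∧ Sk (pr f a P P' k T) := by
  constructor
  · rw [pr_eq]
    exact Submodule.smul_mem _ _ (Submodule.sub_mem _ (pt_mem f h k T)
      (adj_mem_gr hH (pt_mem f h k T)))
  · rw [pr_eq]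
    unfold Sk
    set Z := pt a P P' k T
    rw [Matrix.conjTranspose_smul, star_half, Matrix.conjTranspose_sub, Matrix.conjTranspose_mul,
      Matrix.conjTranspose_mul, J7_star, Matrix.conjTranspose_conjTranspose, Matrix.smul_mul,
      Matrix.mul_smul, ← smul_add, sub_mul, mul_sub]
    have h1 : J7 (E7 R) * (Z * J7 (E7 R)) * J7 (E7 R) = J7 (E7 R) * Z := by
      rw [Matrix.mul_assoc, Matrix.mul_assoc Z, J7_sq, Matrix.mul_one]
    have h2 : J7 (E7 R) * (J7 (E7 R) * Zᴴ * J7 (E7 R)) = Zᴴ * J7 (E7 R) := by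
      rw [← Matrix.mul_assoc, ← Matrix.mul_assoc, J7_sq, Matrix.one_mul]
    rw [h1, h2, sub_add_sub_cancel, sub_self, smul_zero]

private theorem pt_add (a : Fin 7 → ℤ) (P P' : M7 (E7 R)) (k : ℤ) (S T : M7 (E7 R)) :
    pt a P P' k (S + T) = pt a P P' k S + pt a P P' k T := by
  unfold pt
  rw [← add_mul, ← mul_add]
  congr 2
  refine Matrix.ext fun i j => ?_
  show (if a i - a j = k then (P' * (S + T) * P) i j else 0) =
    (if a i - a j = k then (P' * S * P) i j else 0) +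
      (if a i - a j = k then (P' * T * P) i j else 0)
  split_ifs
  · rw [mul_add, add_mul]
    rfl
  · rw [add_zero]

theorem pr_add (f : ℚ →+* R) (a : Fin 7 → ℤ) (P P' : M7 (E7 R)) (k : ℤ) (S T : M7 (E7 R)) :
    pr f a P P' k (S + T) = pr f a P P' k S + pr f a P P' k T := by
  rw [pr_eq, pr_eq, pr_eq, pt_add, Matrix.conjTranspose_add, mul_add, add_mul, ← smul_add]
  congr 1
  abel

private theorem mapM_mul {S : Type} [CommRing S] (φ : R →+* S) (X Y : M7 (E7 R)) :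
    mapM φ (X * Y) = mapM φ X * mapM φ Y := Matrix.map_mul

private theorem mapM_pt {S : Type} [CommRing S] (φ : R →+* S) (a : Fin 7 → ℤ)
    (P P' : M7 (E7 R)) (k : ℤ) (T : M7 (E7 R)) :
    mapM φ (pt a P P' k T) = pt a (mapM φ P) (mapM φ P') k (mapM φ T) := by
  unfold pt
  rw [mapM_mul, mapM_mul, ← mapM_mul φ P' T, ← mapM_mul φ (P' * T) P]
  congr 2
  refine Matrix.ext fun i j => ?_
  show E7.map φ (if a i - a j = k then (P' * T * P) i j else 0) =
    if a i - a j = k then (mapM φ (P' * T * P)) i j else 0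
  split_ifs
  · rfl
  · exact map_zero _

theorem pr_map {S : Type} [CommRing S] (f : ℚ →+* R) (φ : R →+* S) (a : Fin 7 → ℤ)
    (P P' : M7 (E7 R)) (k : ℤ) (T : M7 (E7 R)) :
    mapM φ (pr f a P P' k T) = pr (φ.comp f) a (mapM φ P) (mapM φ P') k (mapM φ T) := by
  rw [pr_eq, pr_eq, ← mapM_pt, ← mapM_star, ← mapM_J φ, ← mapM_mul, ← mapM_mul]
  refine Matrix.ext fun i j => ?_
  show E7.map φ ((⟨f (1 / 2), 0⟩ : E7 R) * (pt a P P' k T i j -
    (J7 (E7 R) * (pt a P P' k T)ᴴ * J7 (E7 R)) i j)) =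
      (⟨φ (f (1 / 2)), 0⟩ : E7 S) * (E7.map φ (pt a P P' k T i j) -
        E7.map φ ((J7 (E7 R) * (pt a P P' k T)ᴴ * J7 (E7 R)) i j))
  rw [map_mul, map_sub]
  congr 1
  ext
  · rfl
  · exact map_zero φ

private theorem continuous_pt [TopologicalSpace R] [IsTopologicalRing R]
    (a : Fin 7 → ℤ) (P P' : M7 (E7 R)) (k : ℤ) : Continuous (pt a P P' k) := by
  unfold pt
  refine Continuous.matrix_mul (Continuous.matrix_mul continuous_const ?_) continuous_const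
  refine continuous_pi fun i => continuous_pi fun j => ?_
  show Continuous fun T : M7 (E7 R) => if a i - a j = k then (P' * T * P) i j else 0
  split_ifs
  · exact ((continuous_const.matrix_mul continuous_id).matrix_mul continuous_const).matrix_elem i j
  · exact continuous_const

theorem continuous_pr [TopologicalSpace R] [IsTopologicalRing R] (f : ℚ →+* R)
    (a : Fin 7 → ℤ) (P P' : M7 (E7 R)) (k : ℤ) : Continuous (pr f a P P' k) := by
  have h := continuous_pt a P P' k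
  have h1 : pr f a P P' k = fun T => (⟨f (1 / 2), 0⟩ : E7 R) •
      (pt a P P' k T - J7 (E7 R) * (pt a P P' k T)ᴴ * J7 (E7 R)) := rfl
  rw [h1]
  have h2 : Continuous fun T => pt a P P' k T - J7 (E7 R) * (pt a P P' k T)ᴴ * J7 (E7 R) :=
    h.sub ((continuous_const.matrix_mul h.matrix_conjTranspose).matrix_mul continuous_const)
  refine continuous_pi fun i => continuous_pi fun j => ?_
  exact continuous_const.mul (h2.matrix_elem i j)

theorem sub_pr (f : ℚ →+* R) {H P P' : M7 (E7 R)} {a : Fin 7 → ℤ} (h : Dg H a P P')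
    (hH : Sk H) {k : ℤ} (hk : 1 ≤ k) (v : U7 R) (hv : v.mat - 1 ∈ fil H k) :
    v.mat - 1 - pr f a P P' k (v.mat - 1) ∈ fil H (k + 1) := by
  set T := v.mat - 1 with hT
  set Z := pt a P P' k T with hZ
  -- the part of degree `k`
  have h1 : T - Z ∈ fil H (k + 1) := by
    rw [mem_fil_conj f h]
    intro i j hij
    rw [mul_sub, sub_mul, Matrix.sub_apply, conj_pt h]
    split_ifs with hc
    · exact sub_self _
    · rw [sub_zero]
      exact (mem_fil_conj f h k T).1 hv i j (by omega)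
  -- the adjoint
  have h2 : J7 (E7 R) * Tᴴ * J7 (E7 R) - J7 (E7 R) * Zᴴ * J7 (E7 R) ∈ fil H (k + 1) := by
    have h3 := adj_mem_fil hH h1
    rwa [Matrix.conjTranspose_sub, mul_sub, sub_mul] at h3
  have h4 : J7 (E7 R) * Tᴴ * J7 (E7 R) + T + J7 (E7 R) * Tᴴ * J7 (E7 R) * T = 0 := by
    have h5 : J7 (E7 R) * Tᴴ * J7 (E7 R) = J7 (E7 R) * v.matᴴ * J7 (E7 R) - 1 := by
      rw [hT, Matrix.conjTranspose_sub, Matrix.conjTranspose_one, mul_sub, sub_mul, mul_one,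
        J7_sq]
    rw [h5]
    have h6 := v.inv_mul_aux
    have h7 : J7 (E7 R) * v.matᴴ * J7 (E7 R) - 1 + T +
        (J7 (E7 R) * v.matᴴ * J7 (E7 R) - 1) * T =
        J7 (E7 R) * v.matᴴ * J7 (E7 R) * v.mat - 1 := by
      rw [hT, sub_mul, mul_sub, mul_one, one_mul]
      abel
    rw [h7, h6, sub_self]
  have h8 : J7 (E7 R) * Tᴴ * J7 (E7 R) * T ∈ fil H (k + 1) :=
    fil_anti H (by omega) (mul_mem_fil (adj_mem_fil hH hv) hv)
  have h9 : J7 (E7 R) * Zᴴ * J7 (E7 R) + Z ∈ fil H (k + 1) := by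
    have h10 : J7 (E7 R) * Zᴴ * J7 (E7 R) + Z = -(J7 (E7 R) * Tᴴ * J7 (E7 R) * T) -
        (J7 (E7 R) * Tᴴ * J7 (E7 R) - J7 (E7 R) * Zᴴ * J7 (E7 R)) - (T - Z) := by
      rw [← sub_eq_zero]
      have h11 : J7 (E7 R) * Zᴴ * J7 (E7 R) + Z - (-(J7 (E7 R) * Tᴴ * J7 (E7 R) * T) -
        (J7 (E7 R) * Tᴴ * J7 (E7 R) - J7 (E7 R) * Zᴴ * J7 (E7 R)) - (T - Z)) =
          J7 (E7 R) * Tᴴ * J7 (E7 R) + T + J7 (E7 R) * Tᴴ * J7 (E7 R) * T := by
        abel
      rw [h11, h4]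
    rw [h10]
    exact Submodule.sub_mem _ (Submodule.sub_mem _ (Submodule.neg_mem _ h8) h2) h1
  have h12 : T - pr f a P P' k T = (T - Z) +
      (⟨f (1 / 2), 0⟩ : E7 R) • (J7 (E7 R) * Zᴴ * J7 (E7 R) + Z) := by
    rw [pr_eq, ← hZ]
    have h13 : Z = (⟨f (1 / 2), 0⟩ : E7 R) • Z + (⟨f (1 / 2), 0⟩ : E7 R) • Z := by
      rw [← add_smul, half_add_half, one_smul]
    rw [smul_sub, smul_add]
    nth_rewrite 3 [h13]
    abel
  rw [h12]
  exact Submodule.add_mem _ h1 (Submodule.smul_mem _ _ h9)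

private theorem exists_cpt1 : ∃ C : Set AQ, IsCompact C ∧ ∀ x : AQ, ∃ q : ℚ, ∃ c ∈ C,
    x = ratAQ q + c := by
  refine ⟨Set.Icc (0 : ℝ) 1 ×ˢ {x : Af | ∀ p : Nat.Primes, ‖x p‖ ≤ 1},
    isCompact_Icc.prod isCompact_int, fun x => ?_⟩
  obtain ⟨q, hq⟩ := exists_rat x.2
  refine ⟨q + (⌊x.1 - (q : ℝ)⌋ : ℤ), x - ratAQ (q + (⌊x.1 - (q : ℝ)⌋ : ℤ)), ⟨?_, fun p => ?_⟩,
    by abel⟩
  · show x.1 - (((q + (⌊x.1 - (q : ℝ)⌋ : ℤ) : ℚ)) : ℝ) ∈ Set.Icc (0 : ℝ) 1
    push_cast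
    have h1 := Int.floor_le (x.1 - (q : ℝ))
    have h2 := Int.lt_floor_add_one (x.1 - (q : ℝ))
    constructor <;> linarith
  · show ‖x.2 p - (((q + (⌊x.1 - (q : ℝ)⌋ : ℤ) : ℚ)) : ℚ_[p])‖ ≤ 1
    have h1 : ‖x.2 p - (q : ℚ_[p])‖ ≤ 1 := hq p
    have h2 : ‖((⌊x.1 - (q : ℝ)⌋ : ℤ) : ℚ_[p])‖ ≤ 1 := Padic.norm_int_le_one _
    have h3 : x.2 p - (((q + (⌊x.1 - (q : ℝ)⌋ : ℤ) : ℚ)) : ℚ_[p]) =
        (x.2 p - (q : ℚ_[p])) + -((⌊x.1 - (q : ℝ)⌋ : ℤ) : ℚ_[p]) := by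
      push_cast
      ring
    rw [h3]
    refine (Padic.nonarchimedean _ _).trans (max_le h1 ?_)
    rw [norm_neg]
    exact h2

theorem exists_cpt : ∃ C : Set (M7 (E7 AQ)), IsCompact C ∧ ∀ T : M7 (E7 AQ),
    ∃ Q : M7 (E7 ℚ), ∃ c ∈ C, T = mapM ratAQ Q + c := by
  obtain ⟨C, hC, h⟩ := exists_cpt1
  choose q c hc hqc using h
  have h1 : IsCompact ((fun p : AQ × AQ => (⟨p.1, p.2⟩ : E7 AQ)) '' (C ×ˢ C)) :=
    (hC.prod hC).image (E7.continuous_mk continuous_fst continuous_snd)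
  refine ⟨Set.pi Set.univ fun _ => Set.pi Set.univ fun _ =>
    (fun p : AQ × AQ => (⟨p.1, p.2⟩ : E7 AQ)) '' (C ×ˢ C),
    isCompact_univ_pi fun _ => isCompact_univ_pi fun _ => h1, fun T => ?_⟩
  refine ⟨Matrix.of fun i j => ⟨q (T i j).re, q (T i j).im⟩,
    Matrix.of fun i j => ⟨c (T i j).re, c (T i j).im⟩, ?_, ?_⟩
  · intro i _ j _
    exact ⟨(c (T i j).re, c (T i j).im), ⟨hc _, hc _⟩, rfl⟩
  · refine Matrix.ext fun i j => ?_
    show T i j = E7.map ratAQ ⟨q (T i j).re, q (T i j).im⟩ + ⟨c (T i j).re, c (T i j).im⟩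
    apply QuadraticAlgebra.ext
    · exact hqc _
    · exact hqc _

end Pool.Agent.MPabcfcd
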