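import Pool.Agent.Lib.MP_abcfcd_nt.N.Ch

/-!
# The unipotent group is the exponential of `⨁_{i ≥ 2} 𝔤_i`

This file is a check of the definitions: `t.V` is the set of the matrices `exp Z`, `Z`
skew-Hermitian in
`fil 2`, and `t.ch (exp Z) = psi (tr (X Z))`.

PROOF. Over `AQ` take `a, P, P'` from `exists_diag`, `Dg.map`. Every `Z ∈ fil 1` satisfies `Z^13 =
0`
(`pow_fil`), so the truncated series is the exponential: `expM (-Z) * expM Z = 1` (binomial identity
`∑_{i+j=n} (-1)^i / (i! j!) = 0` for `n ≥ 1`, terms with `i + j ≥ 13` vanish; or use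
`IsNilpotent.exp_add_of_commute`-type results of Mathlib for a `ℚ`-algebra structure given by
`ratAQ`).
`exp_uni`: `θ(Z) = J Zᴴ J = -Z`, so `θ(expM Z) = expM (-Z)` and `g = expM Z` is unitary;
`g - 1 ∈ fil 2`; `tr (X (g - 1)) = tr (X Z) + ∑_{j ≥ 2} tr (X Z^j) / j!` and `X Z^j ∈ fil (2 j -
2)`, `≥ 2`, has
trace zero (`trace_fil`, `mul_mem_fil`). `uni_exp`: let `T = v - 1 ∈ fil 2`, nilpotent, and
`Z = log (1 + T) = ∑_{j=1}^{12} (-1)^(j-1) T^j / j ∈ fil 2`. `expM Z = v`: an identity of truncated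
power
series in one nilpotent variable over a `ℚ`-algebra. Alternative without the logarithm: `expM` maps
`fil 2` bijectively: construct `Z` by successive approximation, `Z_1 = T`, and if `expM Z_k = v`
modulo
`fil k` then `Z_{k+1} = Z_k + (v - expM Z_k)`, which is correct modulo `fil (k + 1)` (the
difference of
`expM (Z + D)` and `expM Z + D` is in `fil (k + 1)` for `Z ∈ fil 2`, `D ∈ fil k`); stop at `fil 13
= 0`.
Skew-Hermitian: `expM` is injective on `fil 2` by the same estimate, and `expM (θ Z) = θ(v) = v⁻¹ =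
expM (-Z)`, so `θ Z = -Z`.
-/

set_option autoImplicit false

open Matrix MeasureTheory Topology
open scoped ENNReal NNReal ComplexConjugate RestrictedProduct

namespace Pool.Agent.MPabcfcd

/-- The exponential of a nilpotent matrix. -/
noncomputable def expM (Z : M7 (E7 AQ)) : M7 (E7 AQ) :=
  ∑ j ∈ Finset.range 13, (⟨ratAQ (1 / (j.factorial : ℚ)), 0⟩ : E7 AQ) • Z ^ j

/-- The rational scalars. -/
private noncomputable def ExQ : ℚ →+* E7 AQ where
  toFun q := ⟨ratAQ q, 0⟩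
  map_one' := by
    ext1
    · exact map_one ratAQ
    · rfl
  map_mul' x y := by
    ext1
    · simp
    · simp
  map_zero' := by
    ext1
    · exact map_zero ratAQ
    · rfl
  map_add' x y := by
    ext1
    · simp
    · simp

private theorem Ex_star (q : ℚ) : star (ExQ q) = ExQ q := by
  ext1
  · simp [ExQ]
  · simp [ExQ]

private theorem Ex_def (Z : M7 (E7 AQ)) :
    expM Z = ∑ j ∈ Finset.range 13, ExQ (1 / (j.factorial : ℚ)) • Z ^ j := rfl

private theorem Ex_exp {Z : M7 (E7 AQ)} (h : Z ^ 13 = 0) : expM (-Z) * expM Z = 1 := by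
  let _ : Module ℚ (M7 (E7 AQ)) := Module.compHom _ ExQ
  have h1 : ∀ W : M7 (E7 AQ), W ^ 13 = 0 → expM W = IsNilpotent.exp W := by
    intro W hW
    rw [IsNilpotent.exp_eq_sum hW, Ex_def]
    refine Finset.sum_congr rfl fun j _ => ?_
    rw [one_div]
    rfl
  have h2 : (-Z) ^ 13 = 0 := by rw [Odd.neg_pow (by decide), h, neg_zero]
  rw [h1 Z h, h1 (-Z) h2]
  exact IsNilpotent.exp_neg_mul_exp_self ⟨13, h⟩

private theorem Ex_zero : expM 0 = 1 := by
  rw [Ex_def, Finset.sum_eq_single 0]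
  · simp
  · intro j _ hj
    rw [zero_pow hj, smul_zero]
  · intro h
    exact absurd (Finset.mem_range.2 (by norm_num)) h

private theorem Ex_pow {H Z : M7 (E7 AQ)} {k : ℤ} (hk : 1 ≤ k) (hZ : Z ∈ fil H k) (j : ℕ) :
    Z ^ (j + 1) ∈ fil H (k + j) := by
  induction j with
  | zero => simpa using hZ
  | succ n ih =>
    rw [pow_succ]
    refine fil_anti H ?_ (mul_mem_fil ih hZ)
    push_cast
    omega

private theorem Ex_dif {H Z D : M7 (E7 AQ)} {k : ℤ} (hk : 2 ≤ k) (hZ : Z ∈ fil H 2)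
    (hD : D ∈ fil H k) (j : ℕ) :
    (Z + D) ^ (j + 2) - Z ^ (j + 2) ∈ fil H (k + 1) := by
  have hZD : Z + D ∈ fil H 2 := Submodule.add_mem _ hZ (fil_anti H hk hD)
  induction j with
  | zero =>
    have h1 : (Z + D) ^ (0 + 2) - Z ^ (0 + 2) = D * (Z + D) + Z * D := by noncomm_ring
    rw [h1]
    exact Submodule.add_mem _ (fil_anti H (by omega) (mul_mem_fil hD hZD))
      (fil_anti H (by omega) (mul_mem_fil hZ hD))
  | succ n ih =>
    have h1 : (Z + D) ^ (n + 1 + 2) - Z ^ (n + 1 + 2) =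
        ((Z + D) ^ (n + 2) - Z ^ (n + 2)) * (Z + D) + Z ^ (n + 2) * D := by
      rw [show n + 1 + 2 = (n + 2) + 1 by ring, pow_succ, pow_succ Z]
      noncomm_ring
    rw [h1]
    refine Submodule.add_mem _ (fil_anti H (by omega) (mul_mem_fil ih hZD)) ?_
    have h2 := Ex_pow (by norm_num : (1 : ℤ) ≤ 2) hZ (n + 1)
    refine fil_anti H ?_ (mul_mem_fil h2 hD)
    push_cast
    omega

private theorem Ex_split (Z : M7 (E7 AQ)) : expM Z =
    (∑ j ∈ Finset.range 11, ExQ (1 / ((j + 2).factorial : ℚ)) • Z ^ (j + 2)) + Z + 1 := by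
  rw [Ex_def, Finset.sum_range_succ', Finset.sum_range_succ']
  simp

private theorem Ex_est {H Z D : M7 (E7 AQ)} {k : ℤ} (hk : 2 ≤ k) (hZ : Z ∈ fil H 2)
    (hD : D ∈ fil H k) : expM (Z + D) - expM Z - D ∈ fil H (k + 1) := by
  have h1 : expM (Z + D) - expM Z - D =
      ∑ j ∈ Finset.range 11, ExQ (1 / ((j + 2).factorial : ℚ)) •
        ((Z + D) ^ (j + 2) - Z ^ (j + 2)) := by
    rw [Ex_split, Ex_split Z]
    simp only [smul_sub, Finset.sum_sub_distrib]
    abel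
  rw [h1]
  exact Submodule.sum_mem _ fun j _ => Submodule.smul_mem _ _ (Ex_dif hk hZ hD j)

private theorem Ex_adj (Z : M7 (E7 AQ)) :
    (expM Z)ᴴ * J7 (E7 AQ) = J7 (E7 AQ) * expM (J7 (E7 AQ) * Zᴴ * J7 (E7 AQ)) := by
  have hp : ∀ j : ℕ, (Z ^ j)ᴴ * J7 (E7 AQ) =
      J7 (E7 AQ) * (J7 (E7 AQ) * Zᴴ * J7 (E7 AQ)) ^ j := by
    intro j
    induction j with
    | zero => simp
    | succ n ih =>
      rw [pow_succ Z, Matrix.conjTranspose_mul, Matrix.mul_assoc, ih,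
        pow_succ' (J7 (E7 AQ) * _ * _)]
      rw [← Matrix.mul_assoc, ← Matrix.mul_assoc, ← Matrix.mul_assoc, ← Matrix.mul_assoc, J7_sq,
        Matrix.one_mul]
  rw [Ex_def, Ex_def, Matrix.conjTranspose_sum, Finset.sum_mul, Finset.mul_sum]
  refine Finset.sum_congr rfl fun j _ => ?_
  rw [Matrix.conjTranspose_smul, Ex_star, Matrix.smul_mul, Matrix.mul_smul, hp j]

theorem exp_uni (t : Sl2) {Z : M7 (E7 AQ)} (hZ : Z ∈ fil (mapM ratAQ t.h) 2) (hs : Sk Z) :
    ∃ v ∈ t.V, v.mat = expM Z ∧ t.ch v = psi (Matrix.trace (mapM ratAQ t.X * Z)).re := by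
  obtain ⟨a, P, P', D0⟩ := exists_diag t
  have D := D0.map ratAQ
  have h13 : Z ^ 13 = 0 := pow_fil ratAQ D (fil_anti _ (by norm_num) hZ)
  have hθ : J7 (E7 AQ) * Zᴴ * J7 (E7 AQ) = -Z := by
    have hs' : Zᴴ * J7 (E7 AQ) = -(J7 (E7 AQ) * Z) := eq_neg_of_add_eq_zero_left hs
    rw [Matrix.mul_assoc, hs', Matrix.mul_neg, ← Matrix.mul_assoc, J7_sq, Matrix.one_mul]
  have hu : (expM Z)ᴴ * J7 (E7 AQ) * expM Z = J7 (E7 AQ) := by
    rw [Ex_adj, hθ, Matrix.mul_assoc, Ex_exp h13, Matrix.mul_one]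
  have hsub : expM Z - 1 =
      (∑ j ∈ Finset.range 11, ExQ (1 / ((j + 2).factorial : ℚ)) • Z ^ (j + 2)) + Z := by
    rw [Ex_split]
    abel
  have hS : (∑ j ∈ Finset.range 11, ExQ (1 / ((j + 2).factorial : ℚ)) • Z ^ (j + 2)) ∈
      fil (mapM ratAQ t.h) 3 := by
    refine Submodule.sum_mem _ fun j _ => Submodule.smul_mem _ _ ?_
    refine fil_anti _ ?_ (Ex_pow (by norm_num : (1 : ℤ) ≤ 2) hZ (j + 1))
    push_cast
    omega
  have hmem : expM Z - 1 ∈ fil (mapM ratAQ t.h) 2 := by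
    rw [hsub]
    exact Submodule.add_mem _ (fil_anti _ (by norm_num) hS) hZ
  have hX : mapM ratAQ t.X ∈ fil (mapM ratAQ t.h) (-2) := by
    refine gr_le_fil _ le_rfl ?_
    rw [mem_gr]
    have h1 := congrArg (fun M : M7 (E7 ℚ) => (E7.map ratAQ).mapMatrix M) t.h_X
    simp only [map_sub, map_mul, map_neg, map_nsmul] at h1
    have h2 : ((-2 : ℤ) : E7 AQ) • mapM ratAQ t.X = -(2 • mapM ratAQ t.X) := by
      rw [Int.cast_neg, neg_smul, Int.cast_ofNat, two_smul, two_nsmul]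
    rw [h2]
    exact h1
  refine ⟨⟨expM Z, hu⟩, hmem, rfl, ?_⟩
  show psi (Matrix.trace (mapM ratAQ t.X * (expM Z - 1))).re = _
  have ht : Matrix.trace (mapM ratAQ t.X * (expM Z - 1)) =
      Matrix.trace (mapM ratAQ t.X * Z) := by
    rw [hsub, mul_add, Matrix.trace_add]
    rw [trace_fil ratAQ D (by norm_num : (1 : ℤ) ≤ -2 + 3) (mul_mem_fil hX hS), zero_add]
  rw [ht]

private theorem Ex_inj {H P P' : M7 (E7 AQ)} {a : Fin 7 → ℤ} (D : Dg H a P P')
    {Z W : M7 (E7 AQ)} (hZ : Z ∈ fil H 2) (hW : W ∈ fil H 2) (h : expM Z = expM W) : Z = W := by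
  have hk : ∀ n : ℕ, W - Z ∈ fil H (2 + n) := by
    intro n
    induction n with
    | zero => simpa using Submodule.sub_mem _ hW hZ
    | succ n ih =>
      have h1 := Ex_est (by omega : (2 : ℤ) ≤ 2 + n) hZ ih
      rw [add_sub_cancel, h, sub_self, zero_sub] at h1
      have h2 := Submodule.neg_mem _ h1
      rw [neg_neg] at h2
      push_cast
      rwa [← add_assoc]
  have h13 := fil_eq_bot ratAQ D (by simpa using hk 11 : W - Z ∈ fil H 13)
  exact (sub_eq_zero.1 h13).symm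

theorem uni_exp (t : Sl2) {v : U7 AQ} (hv : v ∈ t.V) :
    ∃ Z : M7 (E7 AQ), Z ∈ fil (mapM ratAQ t.h) 2 ∧ Sk Z ∧ v.mat = expM Z := by
  obtain ⟨a, P, P', D0⟩ := exists_diag t
  have D := D0.map ratAQ
  have hH := t.sk_h.map ratAQ
  have hk : ∀ n : ℕ, ∃ Z ∈ fil (mapM ratAQ t.h) 2,
      v.mat - expM Z ∈ fil (mapM ratAQ t.h) (2 + n) := by
    intro n
    induction n with
    | zero =>
      refine ⟨0, Submodule.zero_mem _, ?_⟩
      rw [Ex_zero, Nat.cast_zero, add_zero]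
      exact hv
    | succ n ih =>
      obtain ⟨Z, hZ, hZv⟩ := ih
      have h0 : (2 : ℤ) ≤ 2 + n := by omega
      refine ⟨Z + (v.mat - expM Z), Submodule.add_mem _ hZ (fil_anti _ h0 hZv), ?_⟩
      have h1 := Submodule.neg_mem _ (Ex_est h0 hZ hZv)
      have h2 : v.mat - expM (Z + (v.mat - expM Z)) =
          -(expM (Z + (v.mat - expM Z)) - expM Z - (v.mat - expM Z)) := by abel
      rw [h2]
      push_cast
      rwa [← add_assoc]
  obtain ⟨Z, hZ, hZv⟩ := hk 11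
  have hv' : v.mat = expM Z := by
    have := fil_eq_bot ratAQ D (by simpa using hZv :
      v.mat - expM Z ∈ fil (mapM ratAQ t.h) 13)
    exact sub_eq_zero.1 this
  have h13 : Z ^ 13 = 0 := pow_fil ratAQ D (fil_anti _ (by norm_num) hZ)
  refine ⟨Z, hZ, ?_, hv'⟩
  have h1 : expM (-Z) = expM (J7 (E7 AQ) * Zᴴ * J7 (E7 AQ)) := by
    have e1 : (v⁻¹).mat = expM (J7 (E7 AQ) * Zᴴ * J7 (E7 AQ)) := by
      rw [U7.mat_inv, hv', Matrix.mul_assoc, Ex_adj, ← Matrix.mul_assoc, J7_sq, Matrix.one_mul]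
    have e2 : v.mat * (v⁻¹).mat = 1 := by
      rw [← U7.mat_mul, mul_inv_cancel, U7.mat_one]
    have e3 : expM (-Z) * v.mat = 1 := by
      rw [hv']
      exact Ex_exp h13
    rw [← e1]
    calc expM (-Z) = expM (-Z) * (v.mat * (v⁻¹).mat) := by rw [e2, Matrix.mul_one]
      _ = (v⁻¹).mat := by rw [← Matrix.mul_assoc, e3, Matrix.one_mul]
  have h2 := Ex_inj D (Submodule.neg_mem _ hZ) (adj_mem_fil hH hZ) h1
  show Zᴴ * J7 (E7 AQ) + J7 (E7 AQ) * Z = 0
  have h3 : Zᴴ * J7 (E7 AQ) = J7 (E7 AQ) * (J7 (E7 AQ) * Zᴴ * J7 (E7 AQ)) := by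
    rw [← Matrix.mul_assoc, ← Matrix.mul_assoc, J7_sq, Matrix.one_mul]
  rw [h3, ← h2, Matrix.mul_neg, neg_add_cancel]

end Pool.Agent.MPabcfcd
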