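import Pool.Agent.Lib.MP_abcfcd_nt.N.Cas

/-!
# Weights on the generalised eigenspaces of the Casimir element

`V_j` = the kernel of `(cas - j (j+2))^N`, `j < N`; stable under `e` and `h` (`cas` commutes).
`h_eq`: on `V_j ∩ ker e`: `∏_{i<N} (h - i) v = 0` (`h_ker`) and
`(cas - j (j+2))^N v = (h - j)^N (h + j + 2)^N v = 0` (`cas_ker`). For `u = (h - j) v`:
`∏_{i<N, i≠j} (h - i) u = 0` and `(h - j)^N (h + j + 2)^N u = 0`; the two polynomials are
coprime, so
`u = 0`.
`h_gen`: for `v ∈ V_j ∩ ker e^(k+1)`: `e^k (h - (j - 2k)) v = (h - j) e^k v = 0` (`h_e_pow`,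
`h_eq`), so
`(h - (j - 2k)) v ∈ V_j ∩ ker e^k`. Induction on `k` (all `v ∈ V_j ∩ ker e^k` are killed by
`∏_{i<k} (h - (j - 2i))`), then `e^N = 0`.
-/

set_option autoImplicit false

open Polynomial

namespace Pool.Agent.MPabcfcd

section
variable {F V : Type} [Field F] [CharZero F] [AddCommGroup V] [Module F V]
  {e h f : Module.End F V}

private theorem ker_stable (t : SlT e h f) (p : F[X]) (v : V) (hv : e v = 0) :
    e (aeval h p v) = 0 := by
  have h1 : ∀ w : V, e w = 0 → e (h w) = 0 := by
    intro w hw
    have h2 := congrArg (fun T : Module.End F V => T w) t.he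
    simp only [LinearMap.sub_apply, Module.End.mul_apply, hw, map_zero, zero_sub] at h2
    exact neg_eq_zero.1 h2
  induction p using Polynomial.induction_on' with
  | add p q hp hq => rw [map_add, LinearMap.add_apply, map_add, hp, hq, add_zero]
  | monomial n a =>
    rw [aeval_monomial, Module.End.mul_apply, Module.algebraMap_end_apply, map_smul]
    have h4 : ∀ n : ℕ, e ((h ^ n) v) = 0 := by
      intro n
      induction n with
      | zero => exact hv
      | succ n ih =>
        rw [pow_succ', Module.End.mul_apply]
        exact h1 _ ih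
    rw [h4, smul_zero]

private theorem cas_pow_ker (t : SlT e h f) (j n : ℕ) : ∀ v : V, e v = 0 →
    aeval (cas e h f) ((X - C ((j : F) * (j + 2))) ^ n) v =
      aeval h ((X - C (j : F)) ^ n * (X - C (-((j : F) + 2))) ^ n) v := by
  induction n with
  | zero =>
    intro v _
    simp
  | succ n ih =>
    intro v hv
    have h1 : aeval (cas e h f) (X - C ((j : F) * (j + 2))) v =
        aeval h ((X - C (j : F)) * (X - C (-((j : F) + 2)))) v := by
      rw [map_sub, aeval_X, aeval_C, LinearMap.sub_apply, cas_ker e h f v hv,
        Module.algebraMap_end_apply, map_mul, Module.End.mul_apply, map_sub, map_sub, aeval_X,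
        aeval_C, aeval_C, LinearMap.sub_apply, LinearMap.sub_apply, Module.algebraMap_end_apply,
        Module.algebraMap_end_apply, map_sub, map_smul]
      module
    rw [pow_succ, map_mul, Module.End.mul_apply, h1, ih _ (ker_stable t _ v hv), pow_succ,
      pow_succ, ← Module.End.mul_apply, ← map_mul]
    congr 2
    ring

theorem SlT.h_eq (t : SlT e h f) {N : ℕ} (hf : f ^ N = 0) {j : ℕ} (hj : j < N) (v : V)
    (hv : e v = 0) (hc : aeval (cas e h f) ((X - C ((j : F) * (j + 2))) ^ N) v = 0) :
    h v = (j : F) • v := by
  have h1 := t.h_ker hf v hv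
  rw [cas_pow_ker t j N v hv] at hc
  have hcop : IsCoprime (∏ i ∈ (Finset.range N).erase j, (X - C (i : F)))
      ((X - C (j : F)) ^ N * (X - C (-((j : F) + 2))) ^ N) := by
    refine IsCoprime.prod_left fun i hi => ?_
    have hij : i ≠ j := (Finset.mem_erase.1 hi).1
    refine IsCoprime.mul_right (IsCoprime.pow_right ?_) (IsCoprime.pow_right ?_)
    · refine isCoprime_X_sub_C_of_isUnit_sub (isUnit_iff_ne_zero.2 ?_)
      rw [sub_ne_zero]
      exact_mod_cast hij
    · refine isCoprime_X_sub_C_of_isUnit_sub (isUnit_iff_ne_zero.2 ?_)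
      rw [sub_neg_eq_add]
      have h2 : ((i + (j + 2) : ℕ) : F) ≠ 0 := by
        rw [Nat.cast_ne_zero]
        omega
      intro h3
      apply h2
      push_cast
      exact h3
  obtain ⟨u, w, huw⟩ := hcop
  have h2 : (X - C (j : F)) = u * (∏ i ∈ Finset.range N, (X - C (i : F))) +
      (X - C (j : F)) * w * ((X - C (j : F)) ^ N * (X - C (-((j : F) + 2))) ^ N) := by
    rw [← Finset.mul_prod_erase _ _ (Finset.mem_range.2 hj)]
    calc (X - C (j : F)) = (X - C (j : F)) * 1 := (mul_one _).symm
      _ = _ := by
        rw [← huw]
        ring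
  have h3 : aeval h (X - C (j : F)) v = 0 := by
    rw [h2, map_add, map_mul, map_mul (aeval h) ((X - C (j : F)) * w), LinearMap.add_apply,
      Module.End.mul_apply, Module.End.mul_apply, h1, hc, map_zero, map_zero, add_zero]
  rw [map_sub, aeval_X, aeval_C, LinearMap.sub_apply, Module.algebraMap_end_apply,
    sub_eq_zero] at h3
  exact h3

private theorem gen_comm {T S : Module.End F V} (hTS : Commute T S) (p : F[X]) (v : V) :
    aeval T p (S v) = S (aeval T p v) := by
  have h1 : Commute (aeval T p) S := by
    have h2 : Commute S (aeval T p) := by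
      induction p using Polynomial.induction_on' with
      | add p q hp hq =>
        rw [map_add]
        exact hp.add_right hq
      | monomial n a =>
        rw [aeval_monomial]
        have h3 : Commute S (algebraMap F (Module.End F V) a) := (Algebra.commutes a S).symm
        exact h3.mul_right (hTS.symm.pow_right n)
    exact h2.symm
  exact congrArg (fun U : Module.End F V => U v) h1.eq

theorem SlT.h_gen (t : SlT e h f) {N : ℕ} (he : e ^ N = 0) (hf : f ^ N = 0) {j : ℕ} (hj : j < N)
    (v : V) (hc : aeval (cas e h f) ((X - C ((j : F) * (j + 2))) ^ N) v = 0) :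
    aeval h (∏ k ∈ Finset.range N, (X - C ((j : F) - 2 * k))) v = 0 := by
  have key : ∀ k : ℕ, ∀ v : V,
      aeval (cas e h f) ((X - C ((j : F) * (j + 2))) ^ N) v = 0 → (e ^ k) v = 0 →
      aeval h (∏ k ∈ Finset.range k, (X - C ((j : F) - 2 * k))) v = 0 := by
    intro k
    induction k with
    | zero =>
      intro v _ hv
      have hv' : v = 0 := hv
      rw [hv', map_zero]
    | succ k ih =>
      intro v hc hv
      rw [Finset.prod_range_succ, map_mul, Module.End.mul_apply]
      apply ih
      · have h1 : Commute (cas e h f) (aeval h (X - C ((j : F) - 2 * k))) := by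
          rw [map_sub, aeval_X, aeval_C]
          exact t.cas_comm_h.sub_right (Algebra.commutes _ _).symm
        rw [gen_comm h1, hc, map_zero]
      · have h2 : (cas e h f).comp (e ^ k) = (e ^ k).comp (cas e h f) :=
          (t.cas_comm_e.pow_right k).eq
        have h3 : h ((e ^ k) v) = (j : F) • (e ^ k) v := by
          apply t.h_eq hf hj
          · rw [← Module.End.mul_apply, ← pow_succ']
            exact hv
          · rw [gen_comm (t.cas_comm_e.pow_right k), hc, map_zero]
        have h4 := congrArg (fun T : Module.End F V => T v) (t.h_e_pow k)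
        simp only [Module.End.mul_apply, LinearMap.add_apply, map_add] at h4
        have h5 : (2 : Module.End F V) (((k : Module.End F V)) v) = (2 * (k : F)) • v := by
          have h6 : (2 : Module.End F V) * (k : Module.End F V) =
              algebraMap F (Module.End F V) (2 * (k : F)) := by
            rw [map_mul, map_ofNat, map_natCast]
          rw [← Module.End.mul_apply, h6, Module.algebraMap_end_apply]
        rw [h5, map_smul, h3] at h4
        rw [map_sub, aeval_X, aeval_C, LinearMap.sub_apply, Module.algebraMap_end_apply, map_sub,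
          map_smul]
        have h7 : (e ^ k) (h v) = (j : F) • (e ^ k) v - (2 * (k : F)) • (e ^ k) v := by
          rw [h4]
          abel
        rw [h7]
        module
  exact key N v hc (by rw [he]; rfl)

end

end Pool.Agent.MPabcfcd
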