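import Pool.Agent.Lib.MP_abcfcd_nt.Auto

/-!
# Gradings by diagonalisable elements

PROOF. Over a `ℚ`-algebra (`f : ℚ →+* R`) the nonzero integers are units of `E7 R`.
`mem_gr_diag`: the `(i, j)` entry of `H T - T H - k T` is `(a i - a j - k) T i j`.
`mem_fil_diag`: if `T` is in `fil` it is a sum of elements of `gr i`, `k ≤ i`, which have the
property
(`fil_induction`); conversely `T = ∑_{d} T_d` where `T_d` has the entries of `T` at the places with
`a i - a j = d`; only finitely many `d` occur. `mem_fil_conj`: if `H P = P D`, `P' P = 1 = P P'`,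
then
`T ↦ P' T P` is an isomorphism of `gr H i` to `gr D i` and of `fil H k` to `fil D k`.
`trace_fil`: for `k ≥ 1`: the diagonal entries of `P' T P` vanish and the trace is invariant under
conjugation. `fil_eq_bot`: `|a i| ≤ 6`, so `a i - a j ≤ 12 < 13`. `pow_fil`: `T ^ 13 ∈ fil 13`.
`closed_fil`: a closed condition on the entries (`E7 R` is a Hausdorff topological ring).
-/

set_option autoImplicit false

open Matrix MeasureTheory Topology
open scoped ENNReal NNReal ComplexConjugate RestrictedProduct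

namespace Pool.Agent.MPabcfcd

variable {R : Type} [CommRing R]

private theorem isUnit_intCast_E7 (f : ℚ →+* R) {m : ℤ} (hm : m ≠ 0) :
    IsUnit ((m : ℤ) : E7 R) := by
  have h1 : IsUnit ((m : ℤ) : ℚ) := (Int.cast_ne_zero.2 hm).isUnit
  have h2 := h1.map ((algebraMap R (E7 R)).comp f)
  rwa [map_intCast] at h2

theorem mem_gr_diag (f : ℚ →+* R) (a : Fin 7 → ℤ) (k : ℤ) (T : M7 (E7 R)) :
    T ∈ gr (Matrix.diagonal fun i => ((a i : ℤ) : E7 R)) k ↔
      ∀ i j, a i - a j ≠ k → T i j = 0 := by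
  rw [mem_gr, ← Matrix.ext_iff]
  constructor
  · intro h i j hij
    have h1 := h i j
    rw [Matrix.sub_apply, Matrix.diagonal_mul, Matrix.mul_diagonal, Matrix.smul_apply,
      smul_eq_mul] at h1
    have h2 : ((a i - a j - k : ℤ) : E7 R) * T i j = 0 := by
      push_cast
      linear_combination h1
    exact (IsUnit.mul_right_eq_zero (isUnit_intCast_E7 f (by omega))).1 h2
  · intro h i j
    rw [Matrix.sub_apply, Matrix.diagonal_mul, Matrix.mul_diagonal, Matrix.smul_apply,
      smul_eq_mul]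
    by_cases hij : a i - a j = k
    · rw [← hij]
      push_cast
      ring
    · rw [h i j hij]
      ring

theorem mem_fil_diag (f : ℚ →+* R) (a : Fin 7 → ℤ) (k : ℤ) (T : M7 (E7 R)) :
    T ∈ fil (Matrix.diagonal fun i => ((a i : ℤ) : E7 R)) k ↔
      ∀ i j, a i - a j < k → T i j = 0 := by
  constructor
  · intro hT
    refine fil_induction (p := fun T => ∀ i j, a i - a j < k → T i j = 0) ?_ ?_ ?_ hT
    · intro d hd T hT i j hij
      exact (mem_gr_diag f a d T).1 hT i j (by omega)
    · intro i j _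
      rfl
    · intro S T hS hT i j hij
      rw [Matrix.add_apply, hS i j hij, hT i j hij, add_zero]
  · intro h
    have h1 : T = ∑ d ∈ Finset.univ.image (fun p : Fin 7 × Fin 7 => a p.1 - a p.2),
        (Matrix.of fun i j => if a i - a j = d then T i j else 0 : M7 (E7 R)) := by
      refine Matrix.ext fun i j => ?_
      rw [Matrix.sum_apply, Finset.sum_eq_single (a i - a j)]
      · simp
      · intro b _ hb
        simp [Ne.symm hb]
      · intro hb
        exact absurd (Finset.mem_image.2 ⟨(i, j), Finset.mem_univ _, rfl⟩) hb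
    rw [h1]
    refine Submodule.sum_mem _ fun d _ => ?_
    by_cases hd : k ≤ d
    · refine gr_le_fil _ hd ((mem_gr_diag f a d _).2 fun i j hij => ?_)
      simp [hij]
    · have h2 : (Matrix.of fun i j => if a i - a j = d then T i j else 0 : M7 (E7 R)) = 0 := by
        refine Matrix.ext fun i j => ?_
        by_cases hij : a i - a j = d
        · simp [hij, h i j (by omega)]
        · simp [hij]
      rw [h2]
      exact Submodule.zero_mem _

/-- Diagonalisable grading elements. -/
structure Dg (H : M7 (E7 R)) (a : Fin 7 → ℤ) (P P' : M7 (E7 R)) : Prop where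
  eq : H * P = P * Matrix.diagonal fun i => ((a i : ℤ) : E7 R)
  inv : P' * P = 1
  inv' : P * P' = 1
  bd : ∀ i, |a i| ≤ 6

theorem Dg.map {S : Type} [CommRing S] (f : R →+* S) {H P P' : M7 (E7 R)} {a : Fin 7 → ℤ}
    (h : Dg H a P P') : Dg (mapM f H) a (mapM f P) (mapM f P') := by
  refine ⟨?_, ?_, ?_, h.bd⟩
  · have h1 := congrArg (mapM f) h.eq
    simp only [mapM] at h1 ⊢
    rw [Matrix.map_mul, Matrix.map_mul, Matrix.diagonal_map (map_zero _)] at h1
    rw [h1]
    congr 2
    funext i
    simp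
  · have h1 := congrArg (mapM f) h.inv
    simp only [mapM] at h1 ⊢
    rw [Matrix.map_mul, Matrix.map_one _ (map_zero _) (map_one _)] at h1
    exact h1
  · have h1 := congrArg (mapM f) h.inv'
    simp only [mapM] at h1 ⊢
    rw [Matrix.map_mul, Matrix.map_one _ (map_zero _) (map_one _)] at h1
    exact h1

private theorem Dg.comm {H P P' : M7 (E7 R)} {a : Fin 7 → ℤ} (h : Dg H a P P') :
    P' * H = (Matrix.diagonal fun i => ((a i : ℤ) : E7 R)) * P' := by
  have h1 := congrArg (fun M => P' * M * P') h.eq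
  rw [Matrix.mul_assoc, Matrix.mul_assoc H, h.inv', Matrix.mul_one, ← Matrix.mul_assoc P' P,
    h.inv, Matrix.one_mul] at h1
  exact h1

private theorem Dg.conj_conj {H P P' : M7 (E7 R)} {a : Fin 7 → ℤ} (h : Dg H a P P')
    (T : M7 (E7 R)) : P * (P' * T * P) * P' = T := by
  rw [← Matrix.mul_assoc, ← Matrix.mul_assoc, h.inv', Matrix.one_mul, Matrix.mul_assoc, h.inv',
    Matrix.mul_one]

private theorem Dg.gr_to {H P P' : M7 (E7 R)} {a : Fin 7 → ℤ} (h : Dg H a P P') (k : ℤ)
    {T : M7 (E7 R)} (hT : T ∈ gr H k) :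
    P' * T * P ∈ gr (Matrix.diagonal fun i => ((a i : ℤ) : E7 R)) k := by
  rw [mem_gr] at hT ⊢
  have h1 : (Matrix.diagonal fun i => ((a i : ℤ) : E7 R)) * (P' * T * P) -
      P' * T * P * (Matrix.diagonal fun i => ((a i : ℤ) : E7 R)) =
      P' * (H * T - T * H) * P := by
    rw [← Matrix.mul_assoc, ← Matrix.mul_assoc, ← h.comm, Matrix.mul_assoc (P' * T) P, ← h.eq]
    noncomm_ring
  rw [h1, hT, Matrix.mul_smul, Matrix.smul_mul]

private theorem Dg.gr_from {H P P' : M7 (E7 R)} {a : Fin 7 → ℤ} (h : Dg H a P P') (k : ℤ)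
    {T : M7 (E7 R)} (hT : T ∈ gr (Matrix.diagonal fun i => ((a i : ℤ) : E7 R)) k) :
    P * T * P' ∈ gr H k := by
  rw [mem_gr] at hT ⊢
  have h1 : H * (P * T * P') - P * T * P' * H =
      P * ((Matrix.diagonal fun i => ((a i : ℤ) : E7 R)) * T -
        T * (Matrix.diagonal fun i => ((a i : ℤ) : E7 R))) * P' := by
    rw [← Matrix.mul_assoc, ← Matrix.mul_assoc, h.eq, Matrix.mul_assoc (P * T) P', h.comm]
    noncomm_ring
  rw [h1, hT, Matrix.mul_smul, Matrix.smul_mul]

theorem mem_gr_conj (f : ℚ →+* R) {H P P' : M7 (E7 R)} {a : Fin 7 → ℤ} (h : Dg H a P P')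
    (k : ℤ) (T : M7 (E7 R)) : T ∈ gr H k ↔ ∀ i j, a i - a j ≠ k → (P' * T * P) i j = 0 := by
  rw [← mem_gr_diag f a k]
  constructor
  · exact h.gr_to k
  · intro hT
    have h1 := h.gr_from k hT
    rwa [h.conj_conj] at h1

theorem mem_fil_conj (f : ℚ →+* R) {H P P' : M7 (E7 R)} {a : Fin 7 → ℤ} (h : Dg H a P P')
    (k : ℤ) (T : M7 (E7 R)) : T ∈ fil H k ↔ ∀ i j, a i - a j < k → (P' * T * P) i j = 0 := by
  rw [← mem_fil_diag f a k]
  constructor
  · intro hT
    refine fil_induction (p := fun T => P' * T * P ∈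
      fil (Matrix.diagonal fun i => ((a i : ℤ) : E7 R)) k) ?_ ?_ ?_ hT
    · intro d hd T hT
      exact gr_le_fil _ hd (h.gr_to d hT)
    · rw [mul_zero, zero_mul]
      exact Submodule.zero_mem _
    · intro A B hA hB
      rw [mul_add, add_mul]
      exact Submodule.add_mem _ hA hB
  · intro hT
    have h1 : P * (P' * T * P) * P' ∈ fil H k := by
      refine fil_induction (p := fun T => P * T * P' ∈ fil H k) ?_ ?_ ?_ hT
      · intro d hd T hT
        exact gr_le_fil _ hd (h.gr_from d hT)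
      · rw [mul_zero, zero_mul]
        exact Submodule.zero_mem _
      · intro A B hA hB
        rw [mul_add, add_mul]
        exact Submodule.add_mem _ hA hB
    rwa [h.conj_conj] at h1

theorem trace_fil (f : ℚ →+* R) {H P P' : M7 (E7 R)} {a : Fin 7 → ℤ} (h : Dg H a P P')
    {k : ℤ} (hk : 1 ≤ k) {T : M7 (E7 R)} (hT : T ∈ fil H k) : Matrix.trace T = 0 := by
  have h1 := (mem_fil_conj f h k T).1 hT
  have h2 : Matrix.trace (P' * T * P) = Matrix.trace T := by
    rw [Matrix.trace_mul_comm, ← Matrix.mul_assoc, h.inv', Matrix.one_mul]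
  rw [← h2]
  refine Finset.sum_eq_zero fun i _ => ?_
  exact h1 i i (by omega)

theorem fil_eq_bot (f : ℚ →+* R) {H P P' : M7 (E7 R)} {a : Fin 7 → ℤ} (h : Dg H a P P')
    {T : M7 (E7 R)} (hT : T ∈ fil H 13) : T = 0 := by
  have h1 := (mem_fil_conj f h 13 T).1 hT
  have h2 : P' * T * P = 0 := by
    refine Matrix.ext fun i j => ?_
    have hi := abs_le.1 (h.bd i)
    have hj := abs_le.1 (h.bd j)
    exact h1 i j (by omega)
  rw [← h.conj_conj T, h2, mul_zero, zero_mul]

theorem pow_fil (f : ℚ →+* R) {H P P' : M7 (E7 R)} {a : Fin 7 → ℤ} (h : Dg H a P P')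
    {T : M7 (E7 R)} (hT : T ∈ fil H 1) : T ^ 13 = 0 := by
  have h1 : ∀ m : ℕ, T ^ (m + 1) ∈ fil H ((m : ℤ) + 1) := by
    intro m
    induction m with
    | zero => simpa using hT
    | succ m ih =>
      have h2 := mul_mem_fil ih hT
      rw [← pow_succ] at h2
      push_cast
      exact h2
  refine fil_eq_bot f h ?_
  have h2 := h1 12
  norm_num at h2
  exact h2

theorem closed_fil [TopologicalSpace R] [IsTopologicalRing R] [T2Space R] (f : ℚ →+* R)
    {H P P' : M7 (E7 R)} {a : Fin 7 → ℤ} (h : Dg H a P P') (k : ℤ) :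
    IsClosed {T : M7 (E7 R) | T ∈ fil H k} := by
  have : T2Space (E7 R) := (E7.homeo R).isEmbedding.t2Space
  have h1 : {T : M7 (E7 R) | T ∈ fil H k} =
      ⋂ (i : Fin 7) (j : Fin 7) (_ : a i - a j < k), {T : M7 (E7 R) | (P' * T * P) i j = 0} := by
    ext T
    rw [Set.mem_ofPred_eq, mem_fil_conj f h k T]
    simp only [Set.mem_iInter, Set.mem_ofPred_eq]
  rw [h1]
  refine isClosed_iInter fun i => isClosed_iInter fun j => isClosed_iInter fun _ => ?_
  refine isClosed_eq ?_ continuous_const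
  exact ((continuous_const.matrix_mul continuous_id).matrix_mul continuous_const).matrix_elem i j

end Pool.Agent.MPabcfcd
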