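import Pool.Agent.Lib.MP_abcfcd_nt.N.Sl

/-!
# Primitive vectors

`ef_ker`: by induction on `k` for all `v ∈ ker e`: `e f^(k+1) v = (k+1) f^k (h - k) v` (`e_f_pow`),
and `(h - k) v` is again in `ker e` (`h e = e h + 2 e`); so
`e^(k+1) f^(k+1) v = (k+1) e^k f^k (h - k) v`.
`h_ker`: `f^N = 0`, divide by `N!`.
-/

set_option autoImplicit false

open Polynomial

namespace Pool.Agent.MPabcfcd

section
variable {F V : Type} [Field F] [CharZero F] [AddCommGroup V] [Module F V]
  {e h f : Module.End F V}

theorem SlT.ef_ker (t : SlT e h f) (k : ℕ) (v : V) (hv : e v = 0) :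
    (e ^ k) ((f ^ k) v) =
      (k.factorial : F) • aeval h (∏ j ∈ Finset.range k, (X - C (j : F))) v := by
  induction k generalizing v with
  | zero => simp
  | succ k ih =>
    have h1 := congrArg (fun T : Module.End F V => T v) (t.e_f_pow k)
    have h2 : e ((f ^ (k + 1)) v) = ((k : F) + 1) • (f ^ k) (h v - (k : F) • v) := by
      have h3 : e ((f ^ (k + 1)) v) = (f ^ (k + 1)) (e v) +
          ((k : Module.End F V) + 1) ((f ^ k) (h v - (k : Module.End F V) v)) := h1
      rw [h3, hv, map_zero, zero_add]
      have h4 : ∀ x : V, (k : Module.End F V) x = (k : F) • x := by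
        intro x
        rw [Module.End.natCast_apply, Nat.cast_smul_eq_nsmul]
      rw [LinearMap.add_apply, h4, h4, Module.End.one_apply, add_smul, one_smul]
    have h5 : e (h v) = 0 := by
      have h6 : h (e v) - e (h v) = (2 * e) v := congrArg (fun T : Module.End F V => T v) t.he
      have h7 : (2 * e) v = 0 := by
        have h8 : (2 * e : Module.End F V) = e + e := two_mul e
        rw [h8, LinearMap.add_apply, hv, add_zero]
      rw [h7, hv, map_zero, zero_sub, neg_eq_zero] at h6
      exact h6
    have h6 : e (h v - (k : F) • v) = 0 := by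
      rw [map_sub, h5, map_smul, hv, smul_zero, sub_zero]
    have h7 : (e ^ (k + 1)) ((f ^ (k + 1)) v) = (e ^ k) (e ((f ^ (k + 1)) v)) := by
      rw [pow_succ e k]
      rfl
    rw [h7, h2, map_smul, ih _ h6, Finset.prod_range_succ, map_mul, Module.End.mul_apply]
    have h8 : aeval h (X - C (k : F)) v = h v - (k : F) • v := by
      simp [Nat.cast_smul_eq_nsmul]
    rw [h8, smul_smul, Nat.factorial_succ]
    push_cast
    rfl

theorem SlT.h_ker (t : SlT e h f) {N : ℕ} (hf : f ^ N = 0) (v : V) (hv : e v = 0) :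
    aeval h (∏ j ∈ Finset.range N, (X - C (j : F))) v = 0 := by
  have h1 := t.ef_ker N v hv
  rw [hf, LinearMap.zero_apply, map_zero] at h1
  exact (smul_eq_zero.1 h1.symm).resolve_left (Nat.cast_ne_zero.2 N.factorial_ne_zero)

end

end Pool.Agent.MPabcfcd
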