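import Mathlib

/-!
# `sl₂`-triples in a ring

`e * f ^ (k+1) = f ^ (k+1) * e + (k+1) f^k (h - k)` and `h * e ^ k = e ^ k * (h + 2 k)` by induction.
-/

set_option autoImplicit false

open Polynomial

namespace Pool.Agent.MPabcfcd

/-- `sl₂`-triples: `[h, e] = 2 e`, `[h, f] = - 2 f`, `[e, f] = h`. -/
structure SlT {A : Type} [Ring A] (e h f : A) : Prop where
  he : h * e - e * h = 2 * e
  hf : h * f - f * h = -(2 * f)
  ef : e * f - f * e = h

theorem SlT.symm {A : Type} [Ring A] {e h f : A} (t : SlT e h f) : SlT f (-h) e := by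
  refine ⟨?_, ?_, ?_⟩
  · have h1 : -h * f - f * -h = -(h * f - f * h) := by noncomm_ring
    rw [h1, t.hf, neg_neg]
  · have h1 : -h * e - e * -h = -(h * e - e * h) := by noncomm_ring
    rw [h1, t.he]
  · have h1 : f * e - e * f = -(e * f - f * e) := by noncomm_ring
    rw [h1, t.ef]

theorem SlT.h_e_pow {A : Type} [Ring A] {e h f : A} (t : SlT e h f) (k : ℕ) :
    h * e ^ k = e ^ k * (h + 2 * (k : A)) := by
  induction k with
  | zero => simp
  | succ k ih =>
    have h1 : h * e = e * h + 2 * e := by rw [← t.he]; noncomm_ring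
    have h2 : (k : A) * e = e * (k : A) := (Nat.cast_commute k e).eq
    calc h * e ^ (k + 1) = (h * e ^ k) * e := by rw [pow_succ, mul_assoc]
      _ = e ^ k * (h * e + 2 * ((k : A) * e)) := by rw [ih]; noncomm_ring
      _ = e ^ k * e * (h + 2 * ((k : A) + 1)) := by rw [h1, h2]; noncomm_ring
      _ = e ^ (k + 1) * (h + 2 * ((k + 1 : ℕ) : A)) := by rw [← pow_succ, Nat.cast_succ]

theorem SlT.e_f_pow {A : Type} [Ring A] {e h f : A} (t : SlT e h f) (k : ℕ) :
    e * f ^ (k + 1) = f ^ (k + 1) * e + ((k : A) + 1) * (f ^ k * (h - (k : A))) := by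
  have h1 : e * f = f * e + h := by rw [← t.ef]; noncomm_ring
  have h2 : h * f = f * h - 2 * f := by
    have := t.hf
    rw [sub_eq_iff_eq_add] at this
    rw [this]
    noncomm_ring
  induction k with
  | zero =>
    simp [h1]
  | succ k ih =>
    have h3 : (k : A) * f = f * (k : A) := (Nat.cast_commute k f).eq
    have h4 : ∀ x : A, (k : A) * x = x * (k : A) := fun x => (Nat.cast_commute k x).eq
    calc e * f ^ (k + 1 + 1) = (e * f ^ (k + 1)) * f := by rw [pow_succ f (k + 1), mul_assoc]
      _ = f ^ (k + 1) * (e * f) + ((k : A) + 1) * (f ^ k * (h * f - (k : A) * f)) := by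
        rw [ih]; noncomm_ring
      _ = f ^ (k + 1) * (f * e + h) +
          ((k : A) + 1) * (f ^ k * (f * h - 2 * f - f * (k : A))) := by rw [h1, h2, h3]
      _ = f ^ (k + 1) * f * e + f ^ (k + 1) * h +
          ((k : A) + 1) * (f ^ k * f * (h - 2 - (k : A))) := by noncomm_ring
      _ = f ^ (k + 1) * f * e + f ^ (k + 1) * h +
          (f ^ k * f * (h - 2 - (k : A))) * ((k : A) + 1) := by
        rw [add_mul, mul_add, h4, one_mul, mul_one]
      _ = f ^ (k + 1 + 1) * e +
          (f ^ (k + 1) * (h - ((k : A) + 1))) * ((k : A) + 1 + 1) := by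
        rw [← pow_succ, ← pow_succ]
        have h5 : (h : A) * (k : A) = (k : A) * h := (h4 h).symm
        have h6 : f ^ (k + 1) * (k : A) = (k : A) * f ^ (k + 1) := (h4 _).symm
        noncomm_ring
      _ = f ^ (k + 1 + 1) * e + (((k + 1 : ℕ) : A) + 1) *
          (f ^ (k + 1) * (h - ((k + 1 : ℕ) : A))) := by
        have h7 : ∀ x : A, (((k + 1 : ℕ) : A) + 1) * x = x * (((k + 1 : ℕ) : A) + 1) := by
          intro x
          have h8 := (Nat.cast_commute (k + 1 + 1) x).eq
          rwa [Nat.cast_succ] at h8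
        rw [h7, Nat.cast_succ]

end Pool.Agent.MPabcfcd
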