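import Pool.Agent.Lib.MP_abcfcd_nt.N.Cmp
import Pool.Agent.Lib.MP_abcfcd_nt.Exp

/-!
# The topology of `V_X(𝔸) / V_X(ℚ)`

PROOF. `closed_V`: `t.V` is the preimage of a closed set under `v ↦ v.mat - 1` (`closed_fil` with
the
diagonalisation of `mapM ratAQ t.h`, `Dg.map`). So `t.V` is a closed subgroup of the locally compact
group `U7 AQ`: locally compact, Hausdorff, second countable. `t.VQ` is the intersection with `Gam`:
for a
compact subset of `t.V` its image in `U7 AQ` is compact, `dis_Gam`. The quotient by a closed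
discrete
subgroup is Hausdorff (in Q/Grp.lean the same is proved for `Gam`; for distinct cosets `x W`, `y W`
the
set `W` is closed, `x⁻¹ y ∉ W`, there are neighbourhoods with `U⁻¹ x⁻¹ y U' ∩ W = ∅`), second
countable
(image under an open map), and Borel (`Quotient.borelSpace`, Polish).
-/

set_option autoImplicit false

open Matrix MeasureTheory Topology
open scoped ENNReal NNReal ComplexConjugate RestrictedProduct

namespace Pool.Agent.MPabcfcd

theorem closed_V (t : Sl2) : IsClosed (t.V : Set (U7 AQ)) := by
  obtain ⟨a, P, P', D⟩ := exists_diag t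
  have h := closed_fil ratAQ (D.map ratAQ) 2
  have h1 : (t.V : Set (U7 AQ)) =
      (fun v : U7 AQ => v.mat - 1) ⁻¹' {T | T ∈ fil (mapM ratAQ t.h) 2} := rfl
  rw [h1]
  exact h.preimage (U7.continuous_mat.sub continuous_const)

instance (t : Sl2) : LocallyCompactSpace t.V :=
  (closed_V t).isClosedEmbedding_subtypeVal.locallyCompactSpace

theorem dis_VQ (t : Sl2) : Har.Dis t.VQ := by
  intro K hK
  have h1 : ((Subtype.val '' K : Set (U7 AQ)) ∩ (Gam : Set (U7 AQ))).Finite :=
    dis_Gam _ (hK.image continuous_subtype_val)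
  refine Set.Finite.of_finite_image (f := fun v : t.V => (v : U7 AQ)) ?_
    (fun a _ b _ h => Subtype.ext h)
  refine h1.subset ?_
  rintro _ ⟨v, ⟨hv1, hv2⟩, rfl⟩
  exact ⟨⟨v, hv1, rfl⟩, hv2⟩

private theorem Top_closed (t : Sl2) : IsClosed (t.VQ : Set t.V) :=
  isClosed_Gam.preimage continuous_subtype_val

instance (t : Sl2) : T2Space (t.V ⧸ t.VQ) := by
  have := Top_closed t
  infer_instance

instance (t : Sl2) : BorelSpace (t.V ⧸ t.VQ) := by
  have h1 := Top_closed t
  have h2 : PolishSpace t.V := (closed_V t).polishSpace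
  exact CosetSpace.borelSpace

end Pool.Agent.MPabcfcd
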